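import Pool.Agent.R566.CV.Tr
import Pool.Agent.H826R3.SM.Gen

/-!
# Families over covers
-/

set_option autoImplicit false

namespace Pool.Agent.R566.CV

open scoped TensorProduct PowerSeries
open Pool.Agent.H826R3.SM

/-- a perturbation of finitely many points avoids a hypersurface -/
theorem exists_pert {k L σ J : Type} [Field k] [Infinite k] [Field L] [Finite J] (ι : k →+* L)
    (P : MvPolynomial σ k) (hP : P ≠ 0) (a : J → σ → L) (t : L) (ht : t ≠ 0) :
    ∃ c : σ → k, ∀ j, MvPolynomial.eval₂ ι (fun i => a j i + t * ι (c i)) P ≠ 0 := by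
  classical
  have : Fintype J := Fintype.ofFinite _
  -- the perturbed polynomials
  let Q : J → MvPolynomial σ L := fun j =>
    MvPolynomial.bind₁ (fun i => MvPolynomial.C (a j i) + MvPolynomial.C t * MvPolynomial.X i)
      (MvPolynomial.map ι P)
  have hQ : ∀ j, Q j ≠ 0 := by
    intro j h0
    have h1 : MvPolynomial.bind₁ (fun i => MvPolynomial.C (t⁻¹) *
        (MvPolynomial.X i - MvPolynomial.C (a j i))) (Q j) = MvPolynomial.map ι P := by
      change MvPolynomial.bind₁ _ (MvPolynomial.bind₁ _ _) = _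
      rw [MvPolynomial.bind₁_bind₁]
      conv_rhs => rw [← AlgHom.id_apply (R := L) (MvPolynomial.map ι P)]
      congr 1
      apply MvPolynomial.algHom_ext
      intro i
      rw [MvPolynomial.bind₁_X_right]
      simp only [map_add, map_mul, MvPolynomial.bind₁_X_right, AlgHom.id_apply,
        MvPolynomial.bind₁_C_right]
      rw [← mul_assoc, ← map_mul, mul_inv_cancel₀ ht, map_one, one_mul]
      ring
    rw [h0, map_zero] at h1
    exact hP (MvPolynomial.map_injective ι ι.injective (by rw [← h1, map_zero]))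
  have hprod : (∏ j, Q j) ≠ 0 := Finset.prod_ne_zero_iff.mpr fun j _ => hQ j
  by_contra hcon
  push Not at hcon
  apply hprod
  refine MvPolynomial.funext_set (fun _ => Set.range ι)
    (fun _ => Set.infinite_range_of_injective ι.injective) ?_
  intro x hx
  have hx' : ∀ i, ∃ c : k, ι c = x i := fun i => hx i (Set.mem_univ i)
  choose c hc using hx'
  obtain ⟨j, hj⟩ := hcon c
  rw [map_prod, map_zero]
  refine Finset.prod_eq_zero (Finset.mem_univ j) ?_
  rw [← hj]
  change MvPolynomial.eval x (MvPolynomial.bind₁ _ (MvPolynomial.map ι P)) = _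
  rw [← MvPolynomial.coe_aeval_eq_eval, RingHom.coe_coe, MvPolynomial.aeval_bind₁,
    MvPolynomial.aeval_def, MvPolynomial.eval₂_map]
  congr 1
  funext i
  simp [hc]

section cover

variable {k : Type} [Field k] [IsAlgClosed k] {σ ι : Type} [Fintype ι] [DecidableEq ι]

/-- A finite free cover of affine space with nonzero discriminant. A family over `Spec Y` pulls
back to a family over the cover. -/
theorem Fam.cover {S : Type} [CommRing S] [Algebra (MvPolynomial σ k) S]
    (b : Module.Basis ι (MvPolynomial σ k) S) (hb : Algebra.discr (MvPolynomial σ k) b ≠ 0)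
    {Y Z : Type} [CommRing Y] [Algebra k Y] [CommRing Z] [Algebra k Z] {D : ℕ} (hY : Fam k Y D)
    (r : MvPolynomial σ k →ₐ[k] Y) (g : Y →ₐ[k] Z) (s : S →+* Z)
    (hs : ∀ p, s (algebraMap (MvPolynomial σ k) S p) = g (r p))
    (hgen : ∀ T : Subalgebra k Z, (∀ y, g y ∈ T) → (∀ x, s x ∈ T) → T = ⊤) :
    Fam k Z (D * Fintype.card ι) := by
  classical
  obtain ⟨𝒜, c1, c2, h1, h2, h3, h4, π, h5, h6⟩ := hY
  -- characters
  have hfc : Finite (𝒜 →ₐ[k⟦X⟧] LL k) := Finite.algHom k⟦X⟧ 𝒜 (LL k)
  choose a ha using fun i : σ => h5 (r (MvPolynomial.X i))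
  let κ : k →+* LL k := (algebraMap k⟦X⟧ (LL k)).comp (PowerSeries.C (R := k))
  have hX : algebraMap k⟦X⟧ (LL k) PowerSeries.X ≠ 0 := by
    have h7 : (algebraMap k⟦X⟧ (LL k)) PowerSeries.X =
        algebraMap (LaurentSeries k) (LL k) (algebraMap k⟦X⟧ (LaurentSeries k) PowerSeries.X) :=
      IsScalarTower.algebraMap_apply _ _ _ _
    rw [h7]
    intro h8
    rw [map_eq_zero_iff _ (algebraMap (LaurentSeries k) (LL k)).injective] at h8
    rw [map_eq_zero_iff _ (IsFractionRing.injective k⟦X⟧ (LaurentSeries k))] at h8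
    exact PowerSeries.X_ne_zero h8
  have hinf : Infinite k := IsAlgClosed.instInfinite
  obtain ⟨c, hc⟩ := exists_pert κ (Algebra.discr (MvPolynomial σ k) b) hb
    (fun (α : 𝒜 →ₐ[k⟦X⟧] LL k) i => α (a i)) _ hX
  -- the structure map
  let ρ : MvPolynomial σ k →+* 𝒜 := MvPolynomial.eval₂Hom
    ((algebraMap k⟦X⟧ 𝒜).comp (PowerSeries.C (R := k)))
    (fun i => a i + algebraMap k⟦X⟧ 𝒜 (PowerSeries.X * PowerSeries.C (c i)))
  have hπρ : ∀ p, π (ρ p) = r p := by
    have : π.comp ρ = r.toRingHom := by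
      apply MvPolynomial.ringHom_ext
      · intro x
        change π (ρ (MvPolynomial.C x)) = r (MvPolynomial.C x)
        rw [MvPolynomial.coe_eval₂Hom, MvPolynomial.eval₂_C]
        change π (algebraMap k⟦X⟧ 𝒜 (PowerSeries.C x)) = _
        rw [h6]
        change _ = r (algebraMap k _ x)
        rw [r.commutes]
        simp
      · intro i
        change π (ρ (MvPolynomial.X i)) = r (MvPolynomial.X i)
        rw [MvPolynomial.coe_eval₂Hom, MvPolynomial.eval₂_X, map_add, ha, h6]
        simp
    exact fun p => RingHom.congr_fun this p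
  let algR : Algebra (MvPolynomial σ k) 𝒜 := ρ.toAlgebra
  have hαρ : ∀ (α : 𝒜 →ₐ[k⟦X⟧] LL k) p, α (ρ p) =
      MvPolynomial.eval₂ κ (fun i => α (a i) + algebraMap k⟦X⟧ (LL k) PowerSeries.X * κ (c i)) p := by
    intro α p
    have : (α : 𝒜 →+* LL k).comp ρ = MvPolynomial.eval₂Hom κ
        (fun i => α (a i) + algebraMap k⟦X⟧ (LL k) PowerSeries.X * κ (c i)) := by
      apply MvPolynomial.ringHom_ext
      · intro x
        change α (ρ (MvPolynomial.C x)) = _
        rw [MvPolynomial.coe_eval₂Hom, MvPolynomial.eval₂_C, MvPolynomial.coe_eval₂Hom,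
          MvPolynomial.eval₂_C]
        change α (algebraMap k⟦X⟧ 𝒜 (PowerSeries.C x)) = _
        rw [α.commutes]
        rfl
      · intro i
        change α (ρ (MvPolynomial.X i)) = _
        rw [MvPolynomial.coe_eval₂Hom, MvPolynomial.eval₂_X, MvPolynomial.coe_eval₂Hom,
          MvPolynomial.eval₂_X, map_add, α.commutes, map_mul]
        rfl
    exact RingHom.congr_fun this p
  have hcomm : SMulCommClass (MvPolynomial σ k) k⟦X⟧ 𝒜 := ⟨fun p q x => by
    rw [Algebra.smul_def, Algebra.smul_def, Algebra.smul_def, Algebra.smul_def, mul_left_comm]⟩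
  have hcomm' : SMulCommClass k⟦X⟧ (MvPolynomial σ k) 𝒜 := ⟨fun p q x => by
    rw [Algebra.smul_def, Algebra.smul_def, Algebra.smul_def, Algebra.smul_def, mul_left_comm]⟩
  let β := Module.finBasis k⟦X⟧ 𝒜
  let bb : Module.Basis ι 𝒜 (𝒜 ⊗[MvPolynomial σ k] S) := Algebra.TensorProduct.basis 𝒜 b
  let B : Module.Basis (Fin (Module.finrank k⟦X⟧ 𝒜) × ι) k⟦X⟧ (𝒜 ⊗[MvPolynomial σ k] S) :=
    β.smulTower bb
  have hBapp : ∀ i j, B (i, j) = β i ⊗ₜ[MvPolynomial σ k] b j := by
    intro i j
    rw [Module.Basis.smulTower_apply, Algebra.TensorProduct.basis_apply, TensorProduct.smul_tmul',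
      smul_eq_mul, mul_one]
  have hfree : Module.Free k⟦X⟧ (𝒜 ⊗[MvPolynomial σ k] S) := Module.Free.of_basis B
  have hfin : Module.Finite k⟦X⟧ (𝒜 ⊗[MvPolynomial σ k] S) := Module.Finite.of_basis B
  -- the map to `Z`
  let algZ : Algebra (MvPolynomial σ k) Z := (g.toRingHom.comp r.toRingHom).toAlgebra
  let π' : 𝒜 →ₐ[MvPolynomial σ k] Z := { g.toRingHom.comp π with
    commutes' := fun p => by
      change g (π (ρ p)) = g (r p)
      rw [hπρ] }
  let s' : S →ₐ[MvPolynomial σ k] Z := { s with
    commutes' := fun p => hs p }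
  let Ψ : (𝒜 ⊗[MvPolynomial σ k] S) →ₐ[MvPolynomial σ k] Z := Algebra.TensorProduct.productMap π' s'
  refine ⟨𝒜 ⊗[MvPolynomial σ k] S, inferInstance, inferInstance, hfin, hfree, ?_, ?_,
    Ψ.toRingHom, ?_, fun c => ?_⟩
  · -- reduced
    rw [red_iff_sep B]
    intro y hy
    have key : ∀ α : 𝒜 →ₐ[k⟦X⟧] LL k, ∀ j, ∑ i, y (i, j) * α (β i) = 0 := by
      intro α
      let algL : Algebra (MvPolynomial σ k) (LL k) := ((α : 𝒜 →+* LL k).comp ρ).toAlgebra
      let bT : Module.Basis ι (LL k) (LL k ⊗[MvPolynomial σ k] S) :=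
        Algebra.TensorProduct.basis (LL k) b
      have hdisc : Algebra.discr (LL k) bT ≠ 0 := by
        rw [discr_baseChange b]
        change α (ρ _) ≠ 0
        rw [hαρ]
        exact hc α
      have hred : IsReduced (LL k ⊗[MvPolynomial σ k] S) := reduced_of_discr bT hdisc
      have hfinT : Module.Finite (LL k) (LL k ⊗[MvPolynomial σ k] S) := Module.Finite.of_basis bT
      let z : ι → LL k := fun j => ∑ i, y (i, j) * α (β i)
      have hz0 : (∑ j, z j ⊗ₜ[MvPolynomial σ k] b j : LL k ⊗[MvPolynomial σ k] S) = 0 := by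
        refine eq_zero_of_chars (L := LL k) _ fun φ => ?_
        let α' : 𝒜 →ₐ[MvPolynomial σ k] LL k := { (α : 𝒜 →+* LL k) with
          commutes' := fun p => rfl }
        let γ : S →ₐ[MvPolynomial σ k] LL k := (φ.restrictScalars (MvPolynomial σ k)).comp
          Algebra.TensorProduct.includeRight
        let χ0 : (𝒜 ⊗[MvPolynomial σ k] S) →ₐ[MvPolynomial σ k] LL k :=
          Algebra.TensorProduct.productMap α' γ
        let χ : (𝒜 ⊗[MvPolynomial σ k] S) →ₐ[k⟦X⟧] LL k := { χ0.toRingHom with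
          commutes' := fun q => by
            change χ0 ((algebraMap k⟦X⟧ 𝒜 q) ⊗ₜ 1) = _
            rw [Algebra.TensorProduct.productMap_apply_tmul, map_one, mul_one]
            exact α.commutes q }
        have h9 := hy χ
        have h10 : ∀ i j, χ (B (i, j)) = α (β i) * φ (1 ⊗ₜ b j) := by
          intro i j
          rw [hBapp]
          change χ0 (β i ⊗ₜ b j) = _
          rw [Algebra.TensorProduct.productMap_apply_tmul]
          rfl
        rw [map_sum]
        rw [Fintype.sum_prod_type, Finset.sum_comm] at h9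
        rw [← h9]
        refine Finset.sum_congr rfl fun j _ => ?_
        have h11 : (z j ⊗ₜ[MvPolynomial σ k] b j : LL k ⊗[MvPolynomial σ k] S) =
            z j • (1 ⊗ₜ[MvPolynomial σ k] b j) := by
          rw [TensorProduct.smul_tmul', smul_eq_mul, mul_one]
        rw [h11, map_smul, smul_eq_mul, Finset.sum_mul]
        refine Finset.sum_congr rfl fun i _ => ?_
        rw [h10]
        ring
      intro j
      have h12 : (∑ j, z j • bT j) = 0 := by
        rw [← hz0]
        refine Finset.sum_congr rfl fun j _ => ?_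
        rw [Algebra.TensorProduct.basis_apply, TensorProduct.smul_tmul', smul_eq_mul, mul_one]
      exact Fintype.linearIndependent_iff.mp bT.linearIndependent z h12 j
    funext ⟨i, j⟩
    exact congrFun ((red_iff_sep β).mp h3 (fun i => y (i, j)) fun α => key α j) i
  · rw [Module.finrank_eq_card_basis B, Fintype.card_prod, Fintype.card_fin]
    exact Nat.mul_le_mul_right _ h4
  · -- surjective
    let T : Subalgebra k Z := { Ψ.toRingHom.range with
      algebraMap_mem' := fun x => by
        refine ⟨(algebraMap k⟦X⟧ 𝒜 (PowerSeries.C x)) ⊗ₜ 1, ?_⟩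
        change Ψ _ = _
        rw [Algebra.TensorProduct.productMap_apply_tmul, map_one, mul_one]
        change g (π (algebraMap k⟦X⟧ 𝒜 (PowerSeries.C x))) = _
        rw [h6, g.commutes]
        simp }
    have hT : T = ⊤ := by
      apply hgen
      · intro y
        obtain ⟨x, rfl⟩ := h5 y
        refine ⟨x ⊗ₜ 1, ?_⟩
        change Ψ _ = _
        rw [Algebra.TensorProduct.productMap_apply_tmul, map_one, mul_one]
        rfl
      · intro x
        refine ⟨1 ⊗ₜ x, ?_⟩
        change Ψ _ = _
        rw [Algebra.TensorProduct.productMap_apply_tmul, map_one, one_mul]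
        rfl
    intro z
    have hz : z ∈ T := by rw [hT]; trivial
    exact hz
  · change Ψ ((algebraMap k⟦X⟧ 𝒜 c) ⊗ₜ 1) = _
    rw [Algebra.TensorProduct.productMap_apply_tmul, map_one, mul_one]
    change g (π (algebraMap k⟦X⟧ 𝒜 c)) = _
    rw [h6, g.commutes]

end cover

end Pool.Agent.R566.CV
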