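import Pool.Agent.R566.CV.Univ
import Pool.Agent.R836.Emb

/-!
# Towers
-/

set_option autoImplicit false

namespace Pool.Agent.R566.CV

open scoped TensorProduct PowerSeries
open Pool.Agent.H826R3.SM Pool.Agent.TH671.DU Filter Topology

section tower

variable {k : Type} [Field k] {A B : Type} [CommRing A] [Algebra k A] [CommRing B] [Algebra k B]

/-- the subalgebra `A[y_0, …, y_{i-1}]` of `B` -/
def tow (g : A →ₐ[k] B) {N : ℕ} (y : Fin N → B) (i : ℕ) : Subalgebra k B :=
  Algebra.adjoin k (Set.range g ∪ {z | ∃ j : Fin N, (j : ℕ) < i ∧ z = y j})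

theorem tow_g (g : A →ₐ[k] B) {N : ℕ} (y : Fin N → B) (i : ℕ) (a : A) : g a ∈ tow g y i :=
  Algebra.subset_adjoin (Or.inl ⟨a, rfl⟩)

theorem tow_mono (g : A →ₐ[k] B) {N : ℕ} (y : Fin N → B) (i : ℕ) : tow g y i ≤ tow g y (i + 1) := by
  refine Algebra.adjoin_mono ?_
  rintro z (h | ⟨j, hj, rfl⟩)
  · exact Or.inl h
  · exact Or.inr ⟨j, by omega, rfl⟩

theorem tow_top (g : A →ₐ[k] B) {N : ℕ} (y : Fin N → B) (i : ℕ) (T : Subalgebra k (tow g y i))
    (h1 : ∀ a, (⟨g a, tow_g g y i a⟩ : tow g y i) ∈ T)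
    (h2 : ∀ j : Fin N, ∀ hj : (j : ℕ) < i,
      (⟨y j, Algebra.subset_adjoin (Or.inr ⟨j, hj, rfl⟩)⟩ : tow g y i) ∈ T) : T = ⊤ := by
  rw [eq_top_iff]
  rintro ⟨z, hz⟩ -
  have key : ∀ z (hz : z ∈ tow g y i), (⟨z, hz⟩ : tow g y i) ∈ T := by
    intro z hz
    unfold tow at hz
    induction hz using Algebra.adjoin_induction with
    | mem x hx =>
      rcases hx with ⟨a, rfl⟩ | ⟨j, hj, rfl⟩
      · exact h1 a
      · exact h2 j hj
    | algebraMap c => exact T.algebraMap_mem c
    | add x y hx hy h1 h2 => exact T.add_mem h1 h2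
    | mul x y hx hy h1 h2 => exact T.mul_mem h1 h2
  exact key z hz

variable [IsAlgClosed k] [Module.Finite k A] [Module.Finite k B]

/-- towers of monogenic extensions -/
theorem mdeg_tower (g : A →ₐ[k] B) {N : ℕ} (y : Fin N → B) (m : Fin N → ℕ)
    (hy : ∀ i : Fin N, ∃ f : Polynomial (tow g y i), f.Monic ∧ f.natDegree = m i ∧
      f.aeval (y i) = 0)
    (hgen : tow g y N = ⊤) (n : ℕ) :
    mdeg k (Pow k B n) ≤ (∏ i, m i) ^ n * mdeg k (Pow k A n) := by
  have main : ∀ i (hi : i ≤ N), mdeg k (Pow k (tow g y i) n) ≤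
      (∏ j : Fin i, m (Fin.castLE hi j)) ^ n * mdeg k (Pow k A n) := by
    intro i
    induction i with
    | zero =>
      intro _
      rw [Finset.univ_eq_empty, Finset.prod_empty, one_pow, one_mul]
      obtain ⟨D, hD⟩ := exists_fam (k := k) (Pow k A n)
      let g0 : A →ₐ[k] tow g y 0 := g.codRestrict (tow g y 0) (fun a => tow_g g y 0 a)
      refine mdeg_le (Fam.of_pow (mdeg_spec hD) (fun j => (sg k (tow g y 0) j).comp g0) ?_)
      intro T hT
      apply pow_eq_top
      intro j x
      have h2 : Subalgebra.comap (sg k (tow g y 0) j) T = ⊤ := by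
        apply tow_top
        · intro a
          exact hT j a
        · intro j hj
          exact absurd hj (Nat.not_lt_zero _)
      have h3 : x ∈ Subalgebra.comap (sg k (tow g y 0) j) T := by rw [h2]; trivial
      exact h3
    | succ i ih =>
      intro hi
      have h1 := ih (by omega)
      obtain ⟨f, hf1, hf2, hf3⟩ := hy ⟨i, hi⟩
      have hfin : Module.Finite k (tow g y i) :=
        inferInstanceAs (Module.Finite k (Subalgebra.toSubmodule (tow g y i)))
      have hmem : y ⟨i, hi⟩ ∈ tow g y (i + 1) :=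
        Algebra.subset_adjoin (Or.inr ⟨⟨i, hi⟩, Nat.lt_succ_self i, rfl⟩)
      have h2 := mdeg_mono (B := tow g y (i + 1)) f hf1 (Subalgebra.inclusion (tow_mono g y i))
        ⟨y ⟨i, hi⟩, hmem⟩ (by
          apply Subtype.ext
          have h4 : ((f.eval₂ (Subalgebra.inclusion (tow_mono g y i) :
              tow g y i →+* tow g y (i + 1)) ⟨y ⟨i, hi⟩, hmem⟩ : tow g y (i + 1)) : B) =
              f.aeval (y ⟨i, hi⟩) := by
            rw [Polynomial.aeval_def]
            change (tow g y (i + 1)).val (f.eval₂ _ _) = _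
            rw [← AlgHom.coe_toRingHom, Polynomial.hom_eval₂]
            rfl
          rw [h4, hf3]
          rfl)
        (fun T hT1 hT2 => by
          apply tow_top
          · intro a
            exact hT1 ⟨g a, tow_g g y i a⟩
          · intro j hj
            rcases Nat.lt_succ_iff_lt_or_eq.mp hj with h | h
            · exact hT1 ⟨y j, Algebra.subset_adjoin (Or.inr ⟨j, h, rfl⟩)⟩
            · have hjj : j = ⟨i, hi⟩ := Fin.ext h
              subst hjj
              exact hT2) n
      rw [Fin.prod_univ_castSucc, mul_pow]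
      refine h2.trans ?_
      rw [hf2]
      have h5 : m (Fin.castLE hi (Fin.last i)) = m ⟨i, hi⟩ := rfl
      rw [h5, mul_comm (_ ^ n) (m ⟨i, hi⟩ ^ n), mul_assoc]
      exact Nat.mul_le_mul_left _ h1
  have hN := main N le_rfl
  have e : tow g y N ≃ₐ[k] B := (Subalgebra.equivOfEq _ _ hgen).trans Subalgebra.topEquiv
  have h6 : mdeg k (Pow k B n) ≤ mdeg k (Pow k (tow g y N) n) := by
    have hfin : Module.Finite k (tow g y N) :=
      inferInstanceAs (Module.Finite k (Subalgebra.toSubmodule (tow g y N)))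
    obtain ⟨D, hD⟩ := exists_fam (k := k) (Pow k (tow g y N) n)
    refine mdeg_le (Fam.of_pow (mdeg_spec hD) (fun j => (sg k B j).comp e.toAlgHom) ?_)
    intro T hT
    apply pow_eq_top
    intro j x
    have := hT j (e.symm x)
    change sg k B j (e (e.symm x)) ∈ T at this
    rwa [e.apply_symm_apply] at this
  refine h6.trans (hN.trans (le_of_eq ?_))
  congr 2

end tower

end Pool.Agent.R566.CV
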