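import Pool.Agent.R566.CV.Pr
import Pool.Agent.R566.CV.Tow

/-!
# Inverse systems with few terms
-/

set_option autoImplicit false

namespace Pool.Agent.R566.CV

open scoped TensorProduct PowerSeries
open Pool.Agent.H826R3.SM Pool.Agent.TH671.DU Filter Topology MvPolynomial

section box

variable (k : Type) [Field k] {N : ℕ}

/-- the algebra of the monomial complete intersection `(x_i ^ (s_i + 1))`, as the apolar algebra of
the monomial `s` -/
abbrev Box (s : Fin N →₀ ℕ) : Type := MvPolynomial (Fin N) k ⧸ annOf (lcoeff k s)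

/-- the number of divisors of the monomial `s` -/
def vol (s : Fin N →₀ ℕ) : ℕ := ∏ i, (s i + 1)

lemma X_pow_mem (s : Fin N →₀ ℕ) (i : Fin N) :
    (X i ^ (s i + 1) : MvPolynomial (Fin N) k) ∈ annOf (lcoeff k s) := by
  intro G
  change coeff s (X i ^ (s i + 1) * G) = 0
  rw [X_pow_eq_monomial, coeff_monomial_mul', if_neg]
  intro h
  have := h i
  simp at this

lemma adjoin_box (s : Fin N →₀ ℕ) :
    Algebra.adjoin k (Set.range fun i => (Ideal.Quotient.mk (annOf (lcoeff k s)) (X i) : Box k s)) =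
      ⊤ := by
  have h1 : (Algebra.adjoin k (Set.range (X : Fin N → MvPolynomial (Fin N) k))).map
      (Ideal.Quotient.mkₐ k (annOf (lcoeff k s))) = ⊤ := by
    rw [adjoin_range_X, Algebra.map_top, AlgHom.range_eq_top]
    exact Ideal.Quotient.mkₐ_surjective k _
  rw [← h1, AlgHom.map_adjoin, ← Set.range_comp]
  rfl

lemma box_zero (s : Fin N →₀ ℕ) (i : Fin N) :
    (Ideal.Quotient.mk (annOf (lcoeff k s)) (X i) : Box k s) ^ (s i + 1) = 0 := by
  rw [← map_pow]
  exact Ideal.Quotient.eq_zero_iff_mem.mpr (X_pow_mem k s i)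

instance finite_box (s : Fin N →₀ ℕ) : Module.Finite k (Box k s) := by
  have h1 : (Subalgebra.toSubmodule (Algebra.adjoin k
      (Set.range fun i => (Ideal.Quotient.mk (annOf (lcoeff k s)) (X i) : Box k s)))).FG := by
    refine fg_adjoin_of_finite (Set.finite_range _) ?_
    rintro _ ⟨i, rfl⟩
    refine ⟨Polynomial.X ^ (s i + 1), Polynomial.monic_X_pow _, ?_⟩
    rw [Polynomial.eval₂_X_pow]
    exact box_zero k s i
  rw [adjoin_box, Algebra.top_toSubmodule] at h1
  exact ⟨h1⟩

instance nontrivial_box (s : Fin N →₀ ℕ) : Nontrivial (Box k s) := by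
  rw [Ideal.Quotient.nontrivial_iff, Ne, Ideal.eq_top_iff_one]
  intro h
  have h1 := h (monomial s 1)
  rw [one_mul] at h1
  change coeff s (monomial s 1) = 0 at h1
  rw [coeff_monomial, if_pos rfl] at h1
  exact one_ne_zero h1

variable [IsAlgClosed k]

theorem fam_box (s : Fin N →₀ ℕ) : Fam k (Box k s) (vol s) := by
  let y : Fin N → Box k s := fun i => Ideal.Quotient.mk (annOf (lcoeff k s)) (X i)
  let g : k →ₐ[k] Box k s := Algebra.ofId k _
  have hgen : tow g y N = ⊤ := by
    rw [eq_top_iff, ← adjoin_box]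
    refine Algebra.adjoin_mono ?_
    rintro _ ⟨i, rfl⟩
    exact Or.inr ⟨i, i.2, rfl⟩
  have h1 := mdeg_tower g y (fun i => s i + 1) (fun i => ⟨Polynomial.X ^ (s i + 1),
    Polynomial.monic_X_pow _, Polynomial.natDegree_X_pow _, by
      rw [map_pow, Polynomial.aeval_X]
      exact box_zero k s i⟩) hgen 1
  have h2 : mdeg k (Pow k k 1) ≤ 1 := by
    have := mdeg_le (Pool.Agent.Y232.EM.pow k k 1 1 fam_self)
    rwa [one_pow] at this
  have h3 : mdeg k (Pow k (Box k s) 1) ≤ vol s := by
    refine h1.trans ?_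
    rw [pow_one]
    exact (Nat.mul_le_mul_left _ h2).trans (by rw [mul_one]; exact le_rfl)
  obtain ⟨D, hD⟩ := exists_fam (k := k) (Pow k (Box k s) 1)
  refine ((Fam.of_pow (mdeg_spec hD) (fun _ => AlgHom.id k (Box k s)) ?_)).mono h3
  intro T hT
  rw [eq_top_iff]
  exact fun x _ => hT 0 x

end box

section few

variable {k : Type} [Field k] {N : ℕ}

lemma phi_eq (Φ : MvPolynomial (Fin N) k →ₗ[k] k) (F : MvPolynomial (Fin N) k) :
    Φ F = ∑ u ∈ F.support, coeff u F * Φ (monomial u 1) := by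
  conv_lhs => rw [F.as_sum, map_sum]
  refine Finset.sum_congr rfl fun u _ => ?_
  have h1 : monomial u (coeff u F) = coeff u F • (monomial u 1 : MvPolynomial (Fin N) k) := by
    rw [smul_monomial, smul_eq_mul, mul_one]
  rw [h1, map_smul, smul_eq_mul]

/-- the kernel condition -/
lemma mem_annOf_of_box (Φ : MvPolynomial (Fin N) k →ₗ[k] k) (S : Finset (Fin N →₀ ℕ))
    (hS : ∀ u, Φ (monomial u 1) ≠ 0 → u ∈ S) (F : MvPolynomial (Fin N) k)
    (hF : ∀ s ∈ S, F ∈ annOf (lcoeff k s)) : F ∈ annOf Φ := by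
  intro G
  rw [phi_eq]
  refine Finset.sum_eq_zero fun u _ => ?_
  by_cases hu : Φ (monomial u 1) = 0
  · rw [hu, mul_zero]
  · have h1 : coeff u (F * G) = 0 := hF u (hS u hu) G
    rw [h1, zero_mul]

lemma card_box (s : Fin N →₀ ℕ) : (Finset.Iic s).card = vol s := by
  rw [Finsupp.card_Iic]
  unfold vol
  rw [← Finset.prod_subset (Finset.subset_univ s.support)]
  · exact Finset.prod_congr rfl fun i _ => Nat.card_Iic _
  · intro i _ hi
    rw [Finsupp.notMem_support_iff.mp hi, zero_add]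

/-- a large independent subset of the box -/
lemma exists_indep (S : Finset (Fin N →₀ ℕ)) (s : Fin N →₀ ℕ) (hs : s ∈ S) :
    ∃ U : Finset (Fin N →₀ ℕ), U ⊆ Finset.Iic s ∧
      (∀ u ∈ U, ∀ u' ∈ U, u ≠ u' → ∀ t ∈ S, u + s ≠ u' + t) ∧
      vol s ≤ (2 * S.card - 1) * U.card := by
  classical
  let P : Finset (Finset (Fin N →₀ ℕ)) := (Finset.Iic s).powerset.filter fun U =>
    ∀ u ∈ U, ∀ u' ∈ U, u ≠ u' → ∀ t ∈ S, u + s ≠ u' + t
  have hP : P.Nonempty := ⟨∅, by simp [P]⟩
  obtain ⟨U, hU, hmax⟩ := P.exists_max_image Finset.card hP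
  rw [Finset.mem_filter, Finset.mem_powerset] at hU
  refine ⟨U, hU.1, hU.2, ?_⟩
  let nb : (Fin N →₀ ℕ) → Finset (Fin N →₀ ℕ) := fun u =>
    insert u (((S.erase s).image fun t => u + s - t) ∪ ((S.erase s).image fun t => u + t - s))
  have hnb : ∀ u, (nb u).card ≤ 2 * S.card - 1 := by
    intro u
    have h1 : (S.erase s).card = S.card - 1 := Finset.card_erase_of_mem hs
    have h2 : 1 ≤ S.card := Finset.card_pos.mpr ⟨s, hs⟩
    have h3 := Finset.card_insert_le u
      (((S.erase s).image fun t => u + s - t) ∪ ((S.erase s).image fun t => u + t - s))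
    have h4 := Finset.card_union_le ((S.erase s).image fun t => u + s - t)
      ((S.erase s).image fun t => u + t - s)
    have h5 := Finset.card_image_le (s := S.erase s) (f := fun t => u + s - t)
    have h6 := Finset.card_image_le (s := S.erase s) (f := fun t => u + t - s)
    change (insert u _ : Finset (Fin N →₀ ℕ)).card ≤ _
    omega
  have hcov : Finset.Iic s ⊆ U.biUnion nb := by
    intro w hw
    rw [Finset.mem_biUnion]
    by_cases hwU : w ∈ U
    · exact ⟨w, hwU, Finset.mem_insert_self _ _⟩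
    by_contra hcon
    push Not at hcon
    have hins : insert w U ∈ P := by
      rw [Finset.mem_filter, Finset.mem_powerset]
      refine ⟨Finset.insert_subset hw hU.1, ?_⟩
      intro u hu u' hu' hne t ht heq
      rw [Finset.mem_insert] at hu hu'
      have hts : t ≠ s := by
        rintro rfl
        exact hne (add_right_cancel heq)
      rcases hu with rfl | hu
      · rcases hu' with rfl | hu'
        · exact hne rfl
        · -- `u = w`, `u' ∈ U`: `w + s = u' + t`, `w = u' + t - s`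
          apply hcon u' hu'
          refine Finset.mem_insert_of_mem (Finset.mem_union_right _ (Finset.mem_image.mpr
            ⟨t, Finset.mem_erase.mpr ⟨hts, ht⟩, ?_⟩))
          rw [← heq, add_tsub_cancel_right]
      · rcases hu' with rfl | hu'
        · -- `u + s = w + t`
          apply hcon u hu
          refine Finset.mem_insert_of_mem (Finset.mem_union_left _ (Finset.mem_image.mpr
            ⟨t, Finset.mem_erase.mpr ⟨hts, ht⟩, ?_⟩))
          rw [heq, add_tsub_cancel_right]
        · exact hU.2 u hu u' hu' hne t ht heq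
    have h7 := hmax _ hins
    rw [Finset.card_insert_of_notMem hwU] at h7
    omega
  rw [← card_box]
  refine (Finset.card_le_card hcov).trans ?_
  refine Finset.card_biUnion_le.trans ?_
  refine (Finset.sum_le_sum fun u _ => hnb u).trans ?_
  rw [Finset.sum_const, smul_eq_mul, mul_comm]

/-- The degree of the apolar scheme of a polynomial with few terms is not much smaller than the
number of divisors of any of its monomials. -/
theorem vol_le (Φ : MvPolynomial (Fin N) k →ₗ[k] k) (S : Finset (Fin N →₀ ℕ))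
    (hS : ∀ u, Φ (monomial u 1) ≠ 0 → u ∈ S) [Module.Finite k (ApolarAlg Φ)]
    (s : Fin N →₀ ℕ) (hs : Φ (monomial s 1) ≠ 0) :
    vol s ≤ (2 * S.card - 1) * Module.finrank k (ApolarAlg Φ) := by
  classical
  obtain ⟨U, hU1, hU2, hU3⟩ := exists_indep S s (hS s hs)
  refine hU3.trans (Nat.mul_le_mul_left _ ?_)
  have hli : LinearIndependent k
      (fun u : U => (Ideal.Quotient.mk (annOf Φ) (monomial (u : Fin N →₀ ℕ) 1) : ApolarAlg Φ)) := by
    rw [Fintype.linearIndependent_iff]
    intro c hc u'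
    have h1 : (∑ u : U, C (c u) * monomial (u : Fin N →₀ ℕ) 1 : MvPolynomial (Fin N) k) ∈
        annOf Φ := by
      rw [← Ideal.Quotient.eq_zero_iff_mem, map_sum, ← hc]
      refine Finset.sum_congr rfl fun u _ => ?_
      rw [map_mul, Algebra.smul_def]
      rfl
    have h2 := h1 (monomial (s - (u' : Fin N →₀ ℕ)) 1)
    rw [Finset.sum_mul, map_sum, Finset.sum_eq_single u'] at h2
    · rw [mul_assoc, monomial_mul, one_mul, ← MvPolynomial.smul_eq_C_mul, map_smul,
        smul_eq_mul] at h2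
      have h3 : ((u' : Fin N →₀ ℕ) + (s - (u' : Fin N →₀ ℕ))) = s :=
        add_tsub_cancel_of_le (Finset.mem_Iic.mp (hU1 u'.2))
      rw [h3] at h2
      exact (mul_eq_zero.mp h2).resolve_right hs
    · intro u _ hne
      rw [mul_assoc, monomial_mul, one_mul, ← MvPolynomial.smul_eq_C_mul, map_smul, smul_eq_mul]
      by_cases h4 : Φ (monomial ((u : Fin N →₀ ℕ) + (s - (u' : Fin N →₀ ℕ))) 1) = 0
      · rw [h4, mul_zero]
      · exfalso
        refine hU2 u u.2 u' u'.2 (fun h => hne (Subtype.ext h)) _ (hS _ h4) ?_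
        rw [add_left_comm, add_tsub_cancel_of_le (Finset.mem_Iic.mp (hU1 u'.2))]
    · intro h
      exact absurd (Finset.mem_univ _) h
  have h5 := hli.fintype_card_le_finrank
  rwa [Fintype.card_coe] at h5

end few

section sys

variable {k : Type} [Field k] {N l : ℕ} (Φ : Fin l → (MvPolynomial (Fin N) k →ₗ[k] k))
  (S : Fin l → Finset (Fin N →₀ ℕ)) (hS : ∀ i u, Φ i (monomial u 1) ≠ 0 → u ∈ S i)

include hS

lemma ker_sys (F : MvPolynomial (Fin N) k)
    (hF : ∀ j : (Σ i : Fin l, {s // s ∈ S i}),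
      Ideal.Quotient.mkₐ k (annOf (lcoeff k j.2.1)) F = 0) :
    Ideal.Quotient.mkₐ k (⨅ i, annOf (Φ i)) F = 0 := by
  refine Ideal.Quotient.eq_zero_iff_mem.mpr ?_
  rw [Ideal.mem_iInf]
  intro i
  refine mem_annOf_of_box (Φ i) (S i) (hS i) F fun s hs => ?_
  exact Ideal.Quotient.eq_zero_iff_mem.mp (hF ⟨i, s, hs⟩)

theorem finite_sys : Module.Finite k (MvPolynomial (Fin N) k ⧸ ⨅ i, annOf (Φ i)) :=
  finite_of_maps (fun j : (Σ i : Fin l, {s // s ∈ S i}) => Box k j.2.1)
    (fun j => Ideal.Quotient.mkₐ k (annOf (lcoeff k j.2.1))) (Ideal.Quotient.mkₐ k _)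
    (Ideal.Quotient.mkₐ_surjective k _) (ker_sys Φ S hS)

theorem mdeg_sys [IsAlgClosed k] (n : ℕ) :
    mdeg k (Pow k (MvPolynomial (Fin N) k ⧸ ⨅ i, annOf (Φ i)) n) ≤
      (∑ i, ∑ s ∈ S i, vol s) ^ n := by
  have h := mdeg_of_maps (fun j : (Σ i : Fin l, {s // s ∈ S i}) => Box k j.2.1)
    (fun j => vol j.2.1) (fun j => fam_box k j.2.1)
    (fun j => Ideal.Quotient.mkₐ k (annOf (lcoeff k j.2.1))) (Ideal.Quotient.mkₐ k _)
    (Ideal.Quotient.mkₐ_surjective k _) (ker_sys Φ S hS) n
  rw [Fintype.sum_sigma] at h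
  refine h.trans (le_of_eq ?_)
  congr 1
  refine Finset.sum_congr rfl fun i _ => ?_
  exact Finset.sum_coe_sort (S i) vol

/-- the degree of the union -/
theorem sum_vol_le (hS' : ∀ i, ∀ u ∈ S i, Φ i (monomial u 1) ≠ 0) :
    ∑ i, ∑ s ∈ S i, vol s ≤
      2 * (∑ i, (S i).card) ^ 2 * Module.finrank k (MvPolynomial (Fin N) k ⧸ ⨅ i, annOf (Φ i)) := by
  have hfin := finite_sys Φ S hS
  set A := MvPolynomial (Fin N) k ⧸ ⨅ i, annOf (Φ i)
  set R := ∑ i, (S i).card with hR
  have h1 : ∀ i, ∀ s ∈ S i, vol s ≤ 2 * R * Module.finrank k A := by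
    intro i s hs
    have hle : (⨅ i, annOf (Φ i)) ≤ annOf (Φ i) := iInf_le (fun i => annOf (Φ i)) i
    let f : A →ₐ[k] ApolarAlg (Φ i) := Ideal.Quotient.factorₐ k hle
    have hf : Function.Surjective f := Ideal.Quotient.factor_surjective hle
    have hfi : Module.Finite k (ApolarAlg (Φ i)) := Module.Finite.of_surjective f.toLinearMap hf
    have h2 := vol_le (Φ i) (S i) (hS i) s (hS' i s hs)
    have h3 : Module.finrank k (ApolarAlg (Φ i)) ≤ Module.finrank k A :=
      LinearMap.finrank_le_finrank_of_surjective (f := f.toLinearMap) hf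
    have h4 : (S i).card ≤ R := Finset.single_le_sum (f := fun i => (S i).card)
      (fun _ _ => Nat.zero_le _) (Finset.mem_univ i)
    refine h2.trans (Nat.mul_le_mul ?_ h3)
    omega
  calc ∑ i, ∑ s ∈ S i, vol s ≤ ∑ i, ∑ s ∈ S i, 2 * R * Module.finrank k A :=
        Finset.sum_le_sum fun i _ => Finset.sum_le_sum fun s hs => h1 i s hs
    _ = R * (2 * R * Module.finrank k A) := by
        simp only [Finset.sum_const, smul_eq_mul]
        rw [← Finset.sum_mul]
    _ = 2 * R ^ 2 * Module.finrank k A := by ring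

end sys

end Pool.Agent.R566.CV
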