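import Pool.Agent.R566.CV.Tow

/-!
# Conclusions for covers
-/

set_option autoImplicit false

namespace Pool.Agent.R566.CV

open scoped TensorProduct PowerSeries
open Pool.Agent.H826R3.SM Pool.Agent.TH671.DU Filter Topology

section concl

variable {k : Type} [Field k] [IsAlgClosed k] {A B : Type} [CommRing A] [Algebra k A]
  [Module.Finite k A] [CommRing B] [Algebra k B] [Module.Finite k B]

theorem total_of_mdeg (m : ℕ) (h : ∀ n, mdeg k (Pow k B n) ≤ m ^ n * mdeg k (Pow k A n)) (n : ℕ) :
    Module.finrank k B ^ n + defect k (Pow k B n) ≤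
      m ^ n * (Module.finrank k A ^ n + defect k (Pow k A n)) := by
  have h1 := h n
  rwa [← fadd k (Pow k A n), ← fadd k (Pow k B n), finrank_Pow', finrank_Pow'] at h1

theorem defect_of_mdeg (m : ℕ) (hd : Module.finrank k B = m * Module.finrank k A)
    (h : ∀ n, mdeg k (Pow k B n) ≤ m ^ n * mdeg k (Pow k A n)) (n : ℕ) :
    defect k (Pow k B n) ≤ m ^ n * defect k (Pow k A n) := by
  have h1 := total_of_mdeg m h n
  rw [hd, mul_pow, mul_add] at h1
  omega

variable [Nontrivial A]

theorem qOne_of_mdeg (m : ℕ) (hm : 1 ≤ m) (hd : m * Module.finrank k A ≤ Module.finrank k B)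
    (h : ∀ n, mdeg k (Pow k B n) ≤ m ^ n * mdeg k (Pow k A n)) (hA : QOne k A) : QOne k B := by
  have hA0 : 0 < Module.finrank k A := Module.finrank_pos
  have hB0 : 0 < Module.finrank k B := lt_of_lt_of_le (Nat.mul_pos hm hA0) hd
  have hBn : Nontrivial B := Module.nontrivial_of_finrank_pos hB0
  rw [qOne_iff_rate] at hA ⊢
  apply le_antisymm
  · refine (rate_le_of_mdeg m h).trans ?_
    rw [hA]
    exact_mod_cast hd
  · exact finrank_le_rate B

theorem lim_of_mdeg (m : ℕ) (hm : 1 ≤ m) (hd : Module.finrank k B = m * Module.finrank k A)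
    (h : ∀ n, mdeg k (Pow k B n) ≤ m ^ n * mdeg k (Pow k A n)) {ε : ℝ}
    (hε : rate k A < (m : ℝ) ^ ε * (Module.finrank k A : ℝ) ^ (1 + ε)) :
    Tendsto (fun n : ℕ => (defect k (Pow k B n) : ℝ) /
      (Module.finrank k B : ℝ) ^ ((1 + ε) * (n : ℝ))) atTop (𝓝 0) := by
  have hA0 : 0 < Module.finrank k A := Module.finrank_pos
  have hB0 : 0 < Module.finrank k B := by rw [hd]; exact Nat.mul_pos hm hA0
  have hBn : Nontrivial B := Module.nontrivial_of_finrank_pos hB0
  have hm0 : (0 : ℝ) < m := by exact_mod_cast hm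
  refine Pool.Agent.R836.Emb.lim_of_rate B ?_
  refine lt_of_le_of_lt (rate_le_of_mdeg m h) ?_
  rw [hd]
  push_cast
  rw [Real.mul_rpow (by positivity) (by positivity), Real.rpow_add hm0, Real.rpow_one, mul_assoc]
  exact mul_lt_mul_of_pos_left hε hm0

end concl

/-- for large `m` the hypothesis of `lim_of_mdeg` is satisfied -/
theorem exists_large (k A : Type) [Field k] [IsAlgClosed k] [CommRing A] [Algebra k A]
    [Module.Finite k A] [Nontrivial A] {ε : ℝ} (hε : 0 < ε) : ∃ m₀ : ℕ, 1 ≤ m₀ ∧ ∀ m : ℕ,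
      m₀ ≤ m → rate k A < (m : ℝ) ^ ε * (Module.finrank k A : ℝ) ^ (1 + ε) := by
  have hA0 : (0 : ℝ) < Module.finrank k A := by
    have : 0 < Module.finrank k A := Module.finrank_pos
    exact_mod_cast this
  have h1 : Tendsto (fun n : ℕ => (n : ℝ) ^ ε) atTop atTop :=
    (tendsto_rpow_atTop hε).comp tendsto_natCast_atTop_atTop
  obtain ⟨m₀, hm₀⟩ := eventually_atTop.1
    (h1.eventually_gt_atTop (rate k A / (Module.finrank k A : ℝ) ^ (1 + ε)))
  refine ⟨m₀ + 1, by omega, fun m hm => ?_⟩
  have h2 := hm₀ m (by omega)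
  rwa [div_lt_iff₀ (by positivity)] at h2

section pullback

variable {k : Type} [Field k] {σ S A : Type} [CommRing S] [Algebra (MvPolynomial σ k) S]
  [CommRing A] [Algebra k A] [Module.Finite k A] [Algebra (MvPolynomial σ k) A]
  [IsScalarTower k (MvPolynomial σ k) A] {m : ℕ}

theorem finite_pullback (b : Module.Basis (Fin m) (MvPolynomial σ k) S) :
    Module.Finite k (A ⊗[MvPolynomial σ k] S) ∧
      Module.finrank k (A ⊗[MvPolynomial σ k] S) = m * Module.finrank k A := by
  let β := Module.finBasis k A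
  let B := β.smulTower (Algebra.TensorProduct.basis A b)
  refine ⟨Module.Finite.of_basis B, ?_⟩
  rw [Module.finrank_eq_card_basis B, Fintype.card_prod, Fintype.card_fin, Fintype.card_fin,
    mul_comm]

variable [IsAlgClosed k]

/-- the least degrees of the powers of a closed subscheme of the pull-back of a cover -/
theorem mdeg_pullback (b : Module.Basis (Fin m) (MvPolynomial σ k) S)
    (hb : Algebra.discr (MvPolynomial σ k) b ≠ 0) {B : Type} [CommRing B] [Algebra k B]
    (f : (A ⊗[MvPolynomial σ k] S) →ₐ[k] B) (hf : Function.Surjective f) (n : ℕ) :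
    mdeg k (Pow k B n) ≤ m ^ n * mdeg k (Pow k A n) := by
  have h := mdeg_cover (B := B) b hb n (IsScalarTower.toAlgHom k (MvPolynomial σ k) A)
    (f.comp (Algebra.TensorProduct.includeLeft))
    ((f : (A ⊗[MvPolynomial σ k] S) →+* B).comp
      (Algebra.TensorProduct.includeRight : S →ₐ[MvPolynomial σ k] (A ⊗[MvPolynomial σ k] S)).toRingHom)
    (fun p => by
      change f (1 ⊗ₜ (algebraMap (MvPolynomial σ k) S p)) = f ((algebraMap (MvPolynomial σ k) A p) ⊗ₜ 1)
      congr 1
      rw [Algebra.algebraMap_eq_smul_one, Algebra.algebraMap_eq_smul_one,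
        TensorProduct.tmul_smul, TensorProduct.smul_tmul'])
    (fun T hT1 hT2 => by
      rw [eq_top_iff]
      rintro z -
      obtain ⟨x, rfl⟩ := hf z
      induction x using TensorProduct.induction_on with
      | zero =>
        rw [map_zero]
        exact T.zero_mem
      | tmul a s =>
        have h1 : f (a ⊗ₜ[MvPolynomial σ k] s) = f (a ⊗ₜ 1) * f (1 ⊗ₜ s) := by
          rw [← map_mul, Algebra.TensorProduct.tmul_mul_tmul, mul_one, one_mul]
        rw [h1]
        exact T.mul_mem (hT1 a) (hT2 s)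
      | add x y hx hy =>
        rw [map_add]
        exact T.add_mem hx hy)
  rwa [Fintype.card_fin] at h

end pullback

section adjoin

variable {k : Type} [Field k] {A : Type} [CommRing A] [Algebra k A] [Module.Finite k A]

theorem finite_adjoin (f : Polynomial A) (hf : f.Monic) : Module.Finite k (AdjoinRoot f) ∧
    Module.finrank k (AdjoinRoot f) = f.natDegree * Module.finrank k A := by
  let β := Module.finBasis k A
  let B := β.smulTower (AdjoinRoot.powerBasis' hf).basis
  refine ⟨Module.Finite.of_basis B, ?_⟩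
  rw [Module.finrank_eq_card_basis B, Fintype.card_prod, Fintype.card_fin, Fintype.card_fin,
    mul_comm, AdjoinRoot.powerBasis'_dim]

variable [IsAlgClosed k]

theorem mdeg_adjoin (f : Polynomial A) (hf : f.Monic) (n : ℕ) :
    mdeg k (Pow k (AdjoinRoot f) n) ≤ f.natDegree ^ n * mdeg k (Pow k A n) := by
  refine mdeg_mono f hf (IsScalarTower.toAlgHom k A (AdjoinRoot f)) (AdjoinRoot.root f) ?_ ?_ n
  · exact AdjoinRoot.eval₂_root f
  · intro T h1 h2
    rw [eq_top_iff]
    rintro z -
    obtain ⟨p, rfl⟩ := AdjoinRoot.mk_surjective z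
    induction p using Polynomial.induction_on' with
    | add p q hp hq =>
      rw [map_add]
      exact T.add_mem hp hq
    | monomial i a =>
      rw [← Polynomial.C_mul_X_pow_eq_monomial, map_mul, map_pow]
      refine T.mul_mem ?_ (T.pow_mem h2 i)
      exact h1 a

end adjoin

end Pool.Agent.R566.CV
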