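import Pool.Agent.H826R3.SM.Fam

/-!
# Families under injective maps
-/

namespace Pool.Agent.R566.CV

open Pool.Agent.H826R3.SM
open scoped TensorProduct PowerSeries

variable {k : Type} [Field k]

instance flatLL : Module.Flat k⟦X⟧ (LL k) := by
  have h1 : Module.Flat k⟦X⟧ (LaurentSeries k) :=
    IsLocalization.flat _ (nonZeroDivisors k⟦X⟧)
  exact Module.Flat.trans k⟦X⟧ (LaurentSeries k) (LL k)

/-- a subalgebra of a total space of a family is a total space of a family -/
lemma red_subalgebra {ℬ : Type} [CommRing ℬ] [Algebra k⟦X⟧ ℬ]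
    (h : IsReduced (LL k ⊗[k⟦X⟧] ℬ)) (S : Subalgebra k⟦X⟧ ℬ) :
    IsReduced (LL k ⊗[k⟦X⟧] S) := by
  have h1 : Function.Injective (Algebra.TensorProduct.map (AlgHom.id k⟦X⟧ (LL k)) S.val) := by
    have := Module.Flat.lTensor_preserves_injective_linearMap (M := LL k) S.val.toLinearMap
      Subtype.val_injective
    exact this
  exact isReduced_of_injective _ h1

/-- `Fam` passes to subalgebras, i.e. to schemes which are schematically dominated. -/
lemma Fam.of_injective {A B : Type} [CommRing A] [Algebra k A] [CommRing B] [Algebra k B] {D : ℕ}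
    (h : Fam k B D) (f : A →ₐ[k] B) (hf : Function.Injective f) : Fam k A D := by
  obtain ⟨ℬ, c1, c2, h1, h2, h3, h4, π, h5, h6⟩ := h
  let S : Subalgebra k⟦X⟧ ℬ :=
    { carrier := {b | π b ∈ f.range}
      mul_mem' := fun {a b} ha hb => by
        simp only [Set.mem_setOf_eq, map_mul] at *
        exact mul_mem ha hb
      one_mem' := by
        simp only [Set.mem_setOf_eq, map_one]
        exact one_mem _
      add_mem' := fun {a b} ha hb => by
        simp only [Set.mem_setOf_eq, map_add] at *
        exact add_mem ha hb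
      zero_mem' := by
        simp only [Set.mem_setOf_eq, map_zero]
        exact zero_mem _
      algebraMap_mem' := fun c => by
        simp only [Set.mem_setOf_eq, h6]
        exact f.range.algebraMap_mem _ }
  have hfin : Module.Finite k⟦X⟧ S := inferInstanceAs (Module.Finite k⟦X⟧ (Subalgebra.toSubmodule S))
  have hfree : Module.Free k⟦X⟧ S :=
    inferInstanceAs (Module.Free k⟦X⟧ (Subalgebra.toSubmodule S))
  have hrank : Module.finrank k⟦X⟧ S ≤ D :=
    (Submodule.finrank_le (Subalgebra.toSubmodule S)).trans h4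
  let ρ : S →+* f.range := (π.comp S.val.toRingHom).codRestrict f.range fun b => b.2
  have hρ : Function.Surjective ρ := by
    rintro ⟨y, hy⟩
    obtain ⟨b, hb⟩ := h5 y
    exact ⟨⟨b, by change π b ∈ f.range; rw [hb]; exact hy⟩, Subtype.ext hb⟩
  let e : A ≃ₐ[k] f.range := AlgEquiv.ofInjective f hf
  refine ⟨S, inferInstance, inferInstance, hfin, hfree, red_subalgebra h3 S, hrank,
    e.symm.toRingEquiv.toRingHom.comp ρ, e.symm.surjective.comp hρ, fun c => ?_⟩
  have h7 : ρ (algebraMap k⟦X⟧ S c) = algebraMap k f.range (PowerSeries.constantCoeff c) :=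
    Subtype.ext (h6 c)
  change e.symm (ρ (algebraMap k⟦X⟧ S c)) = _
  rw [h7, e.symm.commutes]

end Pool.Agent.R566.CV
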