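import Pool.Agent.R566.CV.Fin

/-!
# Preimages under `(y_1, …, y_N) ↦ (y_1 ^ e_1, …, y_N ^ e_N)`
-/

set_option autoImplicit false

namespace Pool.Agent.R566.CV

open scoped TensorProduct PowerSeries
open Pool.Agent.H826R3.SM Pool.Agent.TH671.DU Filter Topology

section kum

variable (k : Type) [Field k] {N : ℕ} (e : Fin N → ℕ)

/-- the substitution `x_i ↦ x_i ^ e_i` -/
noncomputable def subst : MvPolynomial (Fin N) k →ₐ[k] MvPolynomial (Fin N) k :=
  MvPolynomial.aeval fun i => MvPolynomial.X i ^ e i

/-- the exponent vector `a ↦ (a_i * e_i)` -/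
noncomputable def mulExp (a : Fin N →₀ ℕ) : Fin N →₀ ℕ := Finsupp.equivFunOnFinite.symm fun i => e i * a i

/-- the exponent vector `a ↦ (a_i / e_i)` -/
noncomputable def divExp (a : Fin N →₀ ℕ) : Fin N →₀ ℕ := Finsupp.equivFunOnFinite.symm fun i => a i / e i

theorem subst_monomial (a : Fin N →₀ ℕ) (c : k) :
    subst k e (MvPolynomial.monomial a c) = MvPolynomial.monomial (mulExp e a) c := by
  unfold subst
  rw [MvPolynomial.aeval_monomial, Finsupp.prod_fintype _ _ (fun i => by rw [pow_zero]),
    MvPolynomial.monomial_eq, Finsupp.prod_fintype _ _ (fun i => by rw [pow_zero])]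
  congr 1
  refine Finset.prod_congr rfl fun i _ => ?_
  rw [← pow_mul]
  rfl

/-- the part of exponents congruent to `r` -/
noncomputable def part (r : ∀ i, Fin (e i)) : MvPolynomial (Fin N) k →ₗ[k] MvPolynomial (Fin N) k :=
  (MvPolynomial.basisMonomials (Fin N) k).constr k fun a =>
    if ∀ i, a i % e i = r i then MvPolynomial.monomial (divExp e a) 1 else 0

theorem part_monomial (r : ∀ i, Fin (e i)) (a : Fin N →₀ ℕ) (c : k) :
    part k e r (MvPolynomial.monomial a c) =
      if ∀ i, a i % e i = r i then MvPolynomial.monomial (divExp e a) c else 0 := by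
  have h1 : MvPolynomial.monomial a c = c • MvPolynomial.basisMonomials (Fin N) k a := by
    rw [MvPolynomial.coe_basisMonomials, MvPolynomial.smul_monomial, smul_eq_mul, mul_one]
  rw [h1, map_smul, part, Module.Basis.constr_basis]
  split_ifs
  · rw [MvPolynomial.smul_monomial, smul_eq_mul, mul_one]
  · rw [smul_zero]

theorem part_mul (r : ∀ i, Fin (e i)) (F G : MvPolynomial (Fin N) k) :
    part k e r (subst k e F * G) = F * part k e r G := by
  have he : ∀ i, 0 < e i := fun i => lt_of_le_of_lt (Nat.zero_le _) (r i).2
  induction F using MvPolynomial.induction_on' with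
  | add p q hp hq => rw [map_add, add_mul, map_add, hp, hq, add_mul]
  | monomial a c =>
    induction G using MvPolynomial.induction_on' with
    | add p q hp hq => rw [mul_add, map_add, hp, hq, map_add, mul_add]
    | monomial b d =>
      rw [subst_monomial, MvPolynomial.monomial_mul, part_monomial, part_monomial]
      have h1 : ∀ i, (mulExp e a + b) i % e i = b i % e i := by
        intro i
        change (e i * a i + b i) % e i = _
        rw [Nat.mul_add_mod]
      have h2 : divExp e (mulExp e a + b) = a + divExp e b := by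
        ext i
        change (e i * a i + b i) / e i = a i + b i / e i
        rw [Nat.mul_add_div (he i)]
      simp only [h1, h2]
      split_ifs
      · rw [MvPolynomial.monomial_mul]
      · rw [mul_zero]

variable (I : Ideal (MvPolynomial (Fin N) k))

theorem part_mem (r : ∀ i, Fin (e i)) (G : MvPolynomial (Fin N) k)
    (hG : G ∈ I.map (subst k e)) : part k e r G ∈ I := by
  have key : ∀ a : MvPolynomial (Fin N) k, part k e r (a * G) ∈ I := by
    unfold Ideal.map at hG
    induction hG using Submodule.span_induction with
    | mem x hx =>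
      intro a
      obtain ⟨F, hF, rfl⟩ := hx
      rw [mul_comm]
      change part k e r (subst k e F * a) ∈ I
      rw [part_mul]
      exact I.mul_mem_right _ hF
    | zero =>
      intro a
      rw [mul_zero, map_zero]
      exact I.zero_mem
    | add x y _ _ hx hy =>
      intro a
      rw [mul_add, map_add]
      exact I.add_mem (hx a) (hy a)
    | smul b x _ hx =>
      intro a
      rw [smul_eq_mul, ← mul_assoc]
      exact hx (a * b)
  have := key 1
  rwa [one_mul] at this

/-- the monomial `y ^ r` -/
noncomputable def rmon (r : ∀ i, Fin (e i)) : MvPolynomial (Fin N) k :=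
  MvPolynomial.monomial (Finsupp.equivFunOnFinite.symm fun i => (r i : ℕ)) 1

theorem part_rmon (r r' : ∀ i, Fin (e i)) (F : MvPolynomial (Fin N) k) :
    part k e r' (subst k e F * rmon k e r) = if r = r' then F else 0 := by
  rw [part_mul, rmon, part_monomial]
  have h1 : (∀ i, (Finsupp.equivFunOnFinite.symm (fun i => (r i : ℕ)) : Fin N →₀ ℕ) i % e i = r' i) ↔
      r = r' := by
    constructor
    · intro h
      funext i
      apply Fin.ext
      have := h i
      rw [← this]
      exact (Nat.mod_eq_of_lt (r i).2).symm
    · rintro rfl i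
      exact Nat.mod_eq_of_lt (r i).2
  simp only [h1]
  split_ifs with h
  · have h2 : divExp e (Finsupp.equivFunOnFinite.symm fun i => (r i : ℕ)) = 0 := by
      ext i
      exact Nat.div_eq_of_lt (r i).2
    rw [h2]
    change F * 1 = F
    rw [mul_one]
  · rw [mul_zero]

/-- the preimage of the closed subscheme `V(I)` of affine space -/
abbrev Pre : Type := MvPolynomial (Fin N) k ⧸ I.map (subst k e)

/-- the map of the algebras -/
noncomputable def gmap : (MvPolynomial (Fin N) k ⧸ I) →ₐ[k] Pre k e I :=
  Ideal.quotientMapₐ (I.map (subst k e)) (subst k e) Ideal.le_comap_map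

theorem gmap_mk (F : MvPolynomial (Fin N) k) :
    gmap k e I (Ideal.Quotient.mk I F) = Ideal.Quotient.mk _ (subst k e F) := rfl

/-- the coefficients with respect to the basis `y ^ r` -/
noncomputable def coeffs : Pre k e I →ₗ[k] ((∀ i, Fin (e i)) → (MvPolynomial (Fin N) k ⧸ I)) :=
  LinearMap.pi fun r => (Submodule.liftQ ((I.map (subst k e)).restrictScalars k)
    ((Ideal.Quotient.mkₐ k I).toLinearMap.comp (part k e r)) (by
      intro G hG
      rw [LinearMap.mem_ker]
      change Ideal.Quotient.mk I (part k e r G) = 0
      exact Ideal.Quotient.eq_zero_iff_mem.mpr (part_mem k e I r G hG)))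

theorem coeffs_surjective : Function.Surjective (coeffs k e I) := by
  classical
  intro v
  choose F hF using fun r => Ideal.Quotient.mk_surjective (v r)
  refine ⟨Ideal.Quotient.mk _ (∑ r, subst k e (F r) * rmon k e r), ?_⟩
  funext r'
  change Ideal.Quotient.mk I (part k e r' (∑ r, subst k e (F r) * rmon k e r)) = v r'
  rw [map_sum]
  simp only [part_rmon]
  rw [Finset.sum_ite_eq' Finset.univ r', if_pos (Finset.mem_univ _), hF]

theorem sum_part (he : ∀ i, 1 ≤ e i) (G : MvPolynomial (Fin N) k) :
    ∑ r, subst k e (part k e r G) * rmon k e r = G := by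
  classical
  induction G using MvPolynomial.induction_on' with
  | add p q hp hq =>
    conv_rhs => rw [← hp, ← hq]
    rw [← Finset.sum_add_distrib]
    refine Finset.sum_congr rfl fun r _ => ?_
    rw [map_add, map_add, add_mul]
  | monomial s c =>
    let r0 : ∀ i, Fin (e i) := fun i => ⟨s i % e i, Nat.mod_lt _ (he i)⟩
    rw [Finset.sum_eq_single r0]
    · rw [part_monomial, if_pos (fun i => rfl), subst_monomial, rmon, MvPolynomial.monomial_mul,
        mul_one]
      have h1 : mulExp e (divExp e s) +
          (Finsupp.equivFunOnFinite.symm fun i => (r0 i : ℕ)) = s := by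
        ext i
        change e i * (s i / e i) + s i % e i = s i
        exact Nat.div_add_mod _ _
      rw [h1]
    · intro r _ hr
      rw [part_monomial, if_neg, map_zero, zero_mul]
      intro h
      apply hr
      funext i
      apply Fin.ext
      exact (h i).symm
    · intro h
      exact absurd (Finset.mem_univ _) h

theorem coeffs_injective (he : ∀ i, 1 ≤ e i) : Function.Injective (coeffs k e I) := by
  rw [injective_iff_map_eq_zero]
  intro x hx
  obtain ⟨G, rfl⟩ := Ideal.Quotient.mk_surjective x
  rw [Ideal.Quotient.eq_zero_iff_mem, ← sum_part k e he G]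
  refine Ideal.sum_mem _ fun r _ => Ideal.mul_mem_right _ _ (Ideal.mem_map_of_mem _ ?_)
  have h1 := congrFun hx r
  exact Ideal.Quotient.eq_zero_iff_mem.mp h1

variable [Module.Finite k (MvPolynomial (Fin N) k ⧸ I)]

theorem finite_pre (he : ∀ i, 1 ≤ e i) : Module.Finite k (Pre k e I) := by
  have hint : Algebra.IsIntegral k (Pre k e I) := by
    refine ⟨fun x => ?_⟩
    have htop : Algebra.adjoin k (Set.range fun i : Fin N =>
        (Ideal.Quotient.mk (I.map (subst k e)) (MvPolynomial.X i) : Pre k e I)) = ⊤ := by
      have h1 : (Set.range fun i : Fin N =>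
          (Ideal.Quotient.mk (I.map (subst k e)) (MvPolynomial.X i) : Pre k e I)) =
          (Ideal.Quotient.mkₐ k (I.map (subst k e))) '' Set.range MvPolynomial.X := by
        rw [← Set.range_comp]
        rfl
      rw [h1, ← AlgHom.map_adjoin, MvPolynomial.adjoin_range_X, Algebra.map_top,
        AlgHom.range_eq_top]
      exact Ideal.Quotient.mkₐ_surjective k _
    have hx : x ∈ Algebra.adjoin k (Set.range fun i : Fin N =>
        (Ideal.Quotient.mk (I.map (subst k e)) (MvPolynomial.X i) : Pre k e I)) := by
      rw [htop]; trivial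
    have hle : Algebra.adjoin k (Set.range fun i : Fin N =>
        (Ideal.Quotient.mk (I.map (subst k e)) (MvPolynomial.X i) : Pre k e I)) ≤
        integralClosure k (Pre k e I) := by
      rw [Algebra.adjoin_le_iff]
      rintro _ ⟨i, rfl⟩
      have h2 : IsIntegral k (Ideal.Quotient.mk I (MvPolynomial.X i)) :=
        Algebra.IsIntegral.isIntegral _
      have h3 := h2.map (gmap k e I)
      rw [gmap_mk] at h3
      have h4 : subst k e (MvPolynomial.X i) = MvPolynomial.X i ^ e i := by
        rw [subst, MvPolynomial.aeval_X]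
      rw [h4, map_pow] at h3
      exact h3.of_pow (he i)
    exact hle hx
  have hft : Algebra.FiniteType k (Pre k e I) :=
    Algebra.FiniteType.of_surjective (Ideal.Quotient.mkₐ k (I.map (subst k e)))
      (Ideal.Quotient.mkₐ_surjective k _)
  exact Algebra.IsIntegral.finite

theorem finrank_pre_ge (he : ∀ i, 1 ≤ e i) :
    (∏ i, e i) * Module.finrank k (MvPolynomial (Fin N) k ⧸ I) ≤
      Module.finrank k (Pre k e I) := by
  have := finite_pre k e I he
  have h1 := LinearMap.finrank_le_finrank_of_surjective (coeffs_surjective k e I)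
  rw [Module.finrank_pi_fintype] at h1
  simpa using h1

theorem finrank_pre (he : ∀ i, 1 ≤ e i) : Module.finrank k (Pre k e I) =
    (∏ i, e i) * Module.finrank k (MvPolynomial (Fin N) k ⧸ I) := by
  have := finite_pre k e I he
  refine le_antisymm ?_ (finrank_pre_ge k e I he)
  have h1 := LinearMap.finrank_le_finrank_of_injective (coeffs_injective k e I he)
  rw [Module.finrank_pi_fintype] at h1
  simpa using h1

theorem mdeg_pre [IsAlgClosed k] [Nontrivial (MvPolynomial (Fin N) k ⧸ I)]
    (he : ∀ i, 1 ≤ e i) (n : ℕ) :
    mdeg k (Pow k (Pre k e I) n) ≤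
      (∏ i, e i) ^ n * mdeg k (Pow k (MvPolynomial (Fin N) k ⧸ I) n) := by
  have hfin := finite_pre k e I he
  have hB : Nontrivial (Pre k e I) := by
    refine Module.nontrivial_of_finrank_pos (R := k) (lt_of_lt_of_le ?_ (finrank_pre_ge k e I he))
    exact Nat.mul_pos (Finset.prod_pos fun i _ => he i) Module.finrank_pos
  refine mdeg_tower (gmap k e I)
    (fun i => (Ideal.Quotient.mk (I.map (subst k e)) (MvPolynomial.X i) : Pre k e I)) e ?_ ?_ n
  · intro i
    set T := tow (gmap k e I)
      (fun i => (Ideal.Quotient.mk (I.map (subst k e)) (MvPolynomial.X i) : Pre k e I)) i with hT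
    let c : T := ⟨gmap k e I (Ideal.Quotient.mk I (MvPolynomial.X i)), tow_g _ _ _ _⟩
    refine ⟨Polynomial.X ^ e i - Polynomial.C c, Polynomial.monic_X_pow_sub_C c (by
      have := he i
      omega), ?_, ?_⟩
    · have hsub : Nontrivial T := inferInstance
      exact Polynomial.natDegree_X_pow_sub_C
    · rw [map_sub, map_pow, Polynomial.aeval_X, Polynomial.aeval_C]
      change (Ideal.Quotient.mk (I.map (subst k e)) (MvPolynomial.X i)) ^ e i -
        Ideal.Quotient.mk (I.map (subst k e)) (subst k e (MvPolynomial.X i)) = 0
      rw [subst, MvPolynomial.aeval_X, map_pow, sub_self]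
  · rw [eq_top_iff]
    rintro z -
    obtain ⟨F, rfl⟩ := Ideal.Quotient.mk_surjective z
    induction F using MvPolynomial.induction_on with
    | C c => exact Subalgebra.algebraMap_mem _ c
    | add p q hp hq =>
      rw [map_add]
      exact Subalgebra.add_mem _ hp hq
    | mul_X p i hp =>
      rw [map_mul]
      exact Subalgebra.mul_mem _ hp (Algebra.subset_adjoin (Or.inr ⟨i, i.2, rfl⟩))

end kum

end Pool.Agent.R566.CV
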