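import Pool.Agent.R566.CV.Sub

/-!
# Products of finitely many algebras and unions of closed subschemes
-/

set_option autoImplicit false

namespace Pool.Agent.R566.CV

open scoped TensorProduct PowerSeries
open Pool.Agent.H826R3.SM Pool.Agent.TH671.DU Filter Topology

variable {k : Type} [Field k]

/-- the product over `Fin (r + 1)` -/
def consEquiv {r : ℕ} (B : Fin (r + 1) → Type) [∀ i, CommRing (B i)] [∀ i, Algebra k (B i)] :
    (B 0 × ∀ i : Fin r, B i.succ) →ₐ[k] (∀ i, B i) :=
  { toFun := fun p => Fin.cons p.1 p.2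
    map_one' := by
      funext i
      refine Fin.cases rfl (fun i => rfl) i
    map_zero' := by
      funext i
      refine Fin.cases rfl (fun i => rfl) i
    map_mul' := fun x y => by
      funext i
      refine Fin.cases rfl (fun i => rfl) i
    map_add' := fun x y => by
      funext i
      refine Fin.cases rfl (fun i => rfl) i
    commutes' := fun c => by
      funext i
      refine Fin.cases rfl (fun i => rfl) i }

lemma consEquiv_surjective {r : ℕ} (B : Fin (r + 1) → Type) [∀ i, CommRing (B i)]
    [∀ i, Algebra k (B i)] : Function.Surjective (consEquiv (k := k) B) := fun g =>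
  ⟨(g 0, fun i => g i.succ), by funext i; refine Fin.cases rfl (fun i => rfl) i⟩

variable [IsAlgClosed k]

theorem rate_pi (r : ℕ) : ∀ (B : Fin (r + 1) → Type) [∀ i, CommRing (B i)] [∀ i, Algebra k (B i)]
    [∀ i, Module.Finite k (B i)] [∀ i, Nontrivial (B i)],
    rate k (∀ i, B i) ≤ ∑ i, rate k (B i) := by
  induction r with
  | zero =>
    intro B _ _ _ _
    rw [Fin.sum_univ_succ, Fin.sum_univ_zero, add_zero]
    let f : B 0 →ₐ[k] (∀ i, B i) :=
      { toFun := fun x => Fin.cons x (fun i => i.elim0)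
        map_one' := by
          funext i
          refine Fin.cases rfl (fun i => i.elim0) i
        map_zero' := by
          funext i
          refine Fin.cases rfl (fun i => i.elim0) i
        map_mul' := fun x y => by
          funext i
          refine Fin.cases rfl (fun i => i.elim0) i
        map_add' := fun x y => by
          funext i
          refine Fin.cases rfl (fun i => i.elim0) i
        commutes' := fun c => by
          funext i
          refine Fin.cases rfl (fun i => i.elim0) i }
    refine rate_of_surjective f fun g => ⟨g 0, ?_⟩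
    funext i
    refine Fin.cases rfl (fun i => i.elim0) i
  | succ r ih =>
    intro B _ _ _ _
    rw [Fin.sum_univ_succ]
    have h1 : rate k (∀ i, B i) ≤ rate k (B 0 × ∀ i : Fin (r + 1), B i.succ) :=
      rate_of_surjective (consEquiv B) (consEquiv_surjective B)
    have h2 : rate k (B 0 × ∀ i : Fin (r + 1), B i.succ) ≤
        rate k (B 0) + rate k (∀ i : Fin (r + 1), B i.succ) := rate_prod_le _ _
    have h3 := ih (fun i => B i.succ)
    linarith

omit [IsAlgClosed k] in
theorem mdeg_pi {ι : Type} [Fintype ι] (B : ι → Type) [∀ i, CommRing (B i)]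
    [∀ i, Algebra k (B i)] (D : ι → ℕ) (hD : ∀ i, Fam k (B i) (D i)) (n : ℕ) :
    Fam k (Pow k (∀ i, B i) n) ((∑ i, D i) ^ n) :=
  Pool.Agent.Y232.EM.pow k _ _ n (Pool.Agent.R836.Emb.fam_pi' B D hD)

section union

variable {A : Type} [CommRing A] [Algebra k A]

/-- Bound for all powers of a scheme whose ring is a quotient of a ring `P` which maps to algebras
`B i` with families. -/
theorem mdeg_of_maps {ι : Type} [Fintype ι] (B : ι → Type) [∀ i, CommRing (B i)]
    [∀ i, Algebra k (B i)] [∀ i, Module.Finite k (B i)] (D : ι → ℕ) (hD : ∀ i, Fam k (B i) (D i))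
    {P : Type} [CommRing P] [Algebra k P] (g : ∀ i, P →ₐ[k] B i) (q : P →ₐ[k] A)
    (hq : Function.Surjective q) (hker : ∀ x, (∀ i, g i x = 0) → q x = 0) (n : ℕ) :
    mdeg k (Pow k A n) ≤ (∑ i, D i) ^ n := by
  obtain ⟨S, p, hp⟩ := exists_sub_pi B g q hq hker
  exact (mdeg_sub S p hp n).trans (mdeg_le (mdeg_pi B D hD n))

omit [IsAlgClosed k] in
theorem finite_of_maps {ι : Type} [Fintype ι] (B : ι → Type) [∀ i, CommRing (B i)]
    [∀ i, Algebra k (B i)] [∀ i, Module.Finite k (B i)]
    {P : Type} [CommRing P] [Algebra k P] (g : ∀ i, P →ₐ[k] B i) (q : P →ₐ[k] A)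
    (hq : Function.Surjective q) (hker : ∀ x, (∀ i, g i x = 0) → q x = 0) :
    Module.Finite k A := by
  obtain ⟨S, p, hp⟩ := exists_sub_pi B g q hq hker
  exact finite_sub S p hp

/-- Unions of closed subschemes. -/
theorem total_union [Module.Finite k A] {r : ℕ} (I : Fin r → Ideal A) (hI : ⨅ i, I i = ⊥) (n : ℕ) :
    Module.finrank k A ^ n + defect k (Pow k A n) ≤
      (∑ i, (Module.finrank k (A ⧸ I i) + defect k (A ⧸ I i))) ^ n := by
  have h1 : ∀ i, Fam k (A ⧸ I i) (Module.finrank k (A ⧸ I i) + defect k (A ⧸ I i)) := by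
    intro i
    rw [fadd k (A ⧸ I i)]
    obtain ⟨D, hD⟩ := exists_fam (k := k) (A ⧸ I i)
    exact mdeg_spec hD
  have h2 := mdeg_of_maps (A := A) (fun i => A ⧸ I i) _ h1 (fun i => Ideal.Quotient.mkₐ k (I i))
    (AlgHom.id k A) Function.surjective_id (by
      intro x hx
      have h3 : x ∈ ⨅ i, I i := by
        rw [Ideal.mem_iInf]
        intro i
        exact Ideal.Quotient.eq_zero_iff_mem.mp (hx i)
      rw [hI] at h3
      exact h3) n
  rwa [← fadd k (Pow k A n), finrank_Pow'] at h2

theorem rate_union [Module.Finite k A] [Nontrivial A] {r : ℕ} (I : Fin r → Ideal A)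
    (hI : ⨅ i, I i = ⊥) (hne : ∀ i, I i ≠ ⊤) : rate k A ≤ ∑ i, rate k (A ⧸ I i) := by
  obtain ⟨S, p, hp⟩ := exists_sub_pi (k := k) (A := A) (fun i => A ⧸ I i)
    (fun i => Ideal.Quotient.mkₐ k (I i)) (AlgHom.id k A) Function.surjective_id (by
      intro x hx
      have h3 : x ∈ ⨅ i, I i := by
        rw [Ideal.mem_iInf]
        intro i
        exact Ideal.Quotient.eq_zero_iff_mem.mp (hx i)
      rw [hI] at h3
      exact h3)
  cases r with
  | zero =>
    exfalso
    rw [iInf_of_empty] at hI
    have : (1 : A) ∈ (⊥ : Ideal A) := by rw [← hI]; trivial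
    exact one_ne_zero (Ideal.mem_bot.mp this)
  | succ r =>
    have hnt : ∀ i, Nontrivial (A ⧸ I i) := fun i => Ideal.Quotient.nontrivial_iff.mpr (hne i)
    exact (rate_sub S p hp).trans (rate_pi r fun i => A ⧸ I i)

/-- Unions of closed subschemes with Q1. -/
theorem rate_union_qOne [Module.Finite k A] [Nontrivial A] {r : ℕ} (I : Fin r → Ideal A)
    (hI : ⨅ i, I i = ⊥) (hne : ∀ i, I i ≠ ⊤) (hQ : ∀ i, QOne k (A ⧸ I i)) :
    rate k A ≤ ∑ i, (Module.finrank k (A ⧸ I i) : ℝ) := by
  refine (rate_union I hI hne).trans (le_of_eq ?_)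
  refine Finset.sum_congr rfl fun i _ => ?_
  have hnt : Nontrivial (A ⧸ I i) := Ideal.Quotient.nontrivial_iff.mpr (hne i)
  exact (qOne_iff_rate (A ⧸ I i)).mp (hQ i)

end union

end Pool.Agent.R566.CV
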