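import Pool.Agent.R566.CV.Cov
import Pool.Agent.TH671.DU.Dich

/-!
# Powers of covers
-/

set_option autoImplicit false

namespace Pool.Agent.R566.CV

open scoped TensorProduct PowerSeries
open Pool.Agent.H826R3.SM Pool.Agent.TH671.DU Filter Topology

section pw

variable {k : Type} [Field k] [IsAlgClosed k] {σ ι : Type} [Fintype ι] [DecidableEq ι]
  {S : Type} [CommRing S] [Algebra (MvPolynomial σ k) S]
  {A B : Type} [CommRing A] [Algebra k A] [CommRing B] [Algebra k B]

/-- the `n`-th power of a closed subscheme of a pull-back of a cover -/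
theorem Fam.cover_pow (b : Module.Basis ι (MvPolynomial σ k) S)
    (hb : Algebra.discr (MvPolynomial σ k) b ≠ 0) {D n : ℕ} (hA : Fam k (Pow k A n) D)
    (r : MvPolynomial σ k →ₐ[k] A) (g : A →ₐ[k] B) (s : S →+* B)
    (hs : ∀ p, s (algebraMap (MvPolynomial σ k) S p) = g (r p))
    (hgen : ∀ T : Subalgebra k B, (∀ y, g y ∈ T) → (∀ x, s x ∈ T) → T = ⊤) :
    Fam k (Pow k B n) (D * Fintype.card ι ^ n) := by
  classical
  let W : ℕ → Set (Pow k B n) := fun i =>
    {z | (∃ (j : Fin n) (a : A), z = sg k B j (g a)) ∨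
      ∃ (j : Fin n) (x : S), (j : ℕ) < i ∧ z = sg k B j (s x)}
  let Z : ℕ → Subalgebra k (Pow k B n) := fun i => Algebra.adjoin k (W i)
  have hZmono : ∀ i, Z i ≤ Z (i + 1) := by
    intro i
    refine Algebra.adjoin_mono ?_
    rintro z (h | ⟨j, x, hj, rfl⟩)
    · exact Or.inl h
    · exact Or.inr ⟨j, x, by omega, rfl⟩
  have hgZ : ∀ i (j : Fin n) (a : A), sg k B j (g a) ∈ Z i := fun i j a =>
    Algebra.subset_adjoin (Or.inl ⟨j, a, rfl⟩)
  have main : ∀ i, i ≤ n → Fam k (Z i) (D * Fintype.card ι ^ i) := by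
    intro i
    induction i with
    | zero =>
      intro _
      rw [pow_zero, mul_one]
      refine Fam.of_pow hA (fun j => ((sg k B j).comp g).codRestrict (Z 0)
        (fun a => hgZ 0 j a)) ?_
      intro T hT
      rw [eq_top_iff]
      rintro ⟨z, hz⟩ -
      have key : ∀ z (hz : z ∈ Algebra.adjoin k (W 0)), (⟨z, hz⟩ : Z 0) ∈ T := by
        intro z hz
        induction hz using Algebra.adjoin_induction with
        | mem x hx =>
          rcases hx with ⟨j, a, rfl⟩ | ⟨j, x, hj, rfl⟩
          · exact hT j a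
          · exact absurd hj (Nat.not_lt_zero _)
        | algebraMap c => exact T.algebraMap_mem c
        | add x y hx hy h1 h2 => exact T.add_mem h1 h2
        | mul x y hx hy h1 h2 => exact T.mul_mem h1 h2
      exact key z hz
    | succ i ih =>
      intro hi
      have h1 := ih (by omega)
      rw [pow_succ, ← mul_assoc]
      let j0 : Fin n := ⟨i, by omega⟩
      have hsZ : ∀ x : S, sg k B j0 (s x) ∈ Z (i + 1) := fun x =>
        Algebra.subset_adjoin (Or.inr ⟨j0, x, Nat.lt_succ_self i, rfl⟩)
      refine Fam.cover b hb h1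
        (r := (((sg k B j0).comp g).codRestrict (Z i) (fun a => hgZ i j0 a)).comp r)
        (g := Subalgebra.inclusion (hZmono i))
        (s := ((sg k B j0).toRingHom.comp s).codRestrict (Z (i + 1)).toSubring
          (fun x => hsZ x)) ?_ ?_
      · intro p
        apply Subtype.ext
        change sg k B j0 (s (algebraMap _ S p)) = sg k B j0 (g (r p))
        rw [hs]
      · intro T hT1 hT2
        rw [eq_top_iff]
        rintro ⟨z, hz⟩ -
        have key : ∀ z (hz : z ∈ Algebra.adjoin k (W (i + 1))), (⟨z, hz⟩ : Z (i + 1)) ∈ T := by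
          intro z hz
          induction hz using Algebra.adjoin_induction with
          | mem x hx =>
            rcases hx with ⟨j, a, rfl⟩ | ⟨j, x, hj, rfl⟩
            · exact hT1 ⟨_, hgZ i j a⟩
            · rcases Nat.lt_succ_iff_lt_or_eq.mp hj with h | h
              · exact hT1 ⟨_, Algebra.subset_adjoin (Or.inr ⟨j, x, h, rfl⟩)⟩
              · have hjj : j = j0 := Fin.ext h
                subst hjj
                exact hT2 x
          | algebraMap c => exact T.algebraMap_mem c
          | add x y hx hy h1 h2 => exact T.add_mem h1 h2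
          | mul x y hx hy h1 h2 => exact T.mul_mem h1 h2
        exact key z hz
  have hn := main n le_rfl
  have htop : Z n = ⊤ := by
    apply pow_eq_top
    intro j x
    have h2 : (Subalgebra.comap (sg k B j) (Z n)) = ⊤ := by
      apply hgen
      · intro y
        exact hgZ n j y
      · intro x
        exact Algebra.subset_adjoin (Or.inr ⟨j, x, j.2, rfl⟩)
    have h3 : x ∈ Subalgebra.comap (sg k B j) (Z n) := by rw [h2]; trivial
    exact h3
  refine hn.of_surjective (Z n).val ?_
  intro z
  exact ⟨⟨z, by rw [htop]; trivial⟩, rfl⟩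

theorem mdeg_cover [Module.Finite k A] (b : Module.Basis ι (MvPolynomial σ k) S)
    (hb : Algebra.discr (MvPolynomial σ k) b ≠ 0) (n : ℕ)
    (r : MvPolynomial σ k →ₐ[k] A) (g : A →ₐ[k] B) (s : S →+* B)
    (hs : ∀ p, s (algebraMap (MvPolynomial σ k) S p) = g (r p))
    (hgen : ∀ T : Subalgebra k B, (∀ y, g y ∈ T) → (∀ x, s x ∈ T) → T = ⊤) :
    mdeg k (Pow k B n) ≤ Fintype.card ι ^ n * mdeg k (Pow k A n) := by
  obtain ⟨D, hD⟩ := exists_fam (k := k) (Pow k A n)
  rw [mul_comm]
  exact mdeg_le (Fam.cover_pow b hb (mdeg_spec hD) r g s hs hgen)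

end pw

section rates

variable {k : Type} [Field k] [IsAlgClosed k] {A B : Type} [CommRing A] [Algebra k A]
  [Module.Finite k A] [CommRing B] [Algebra k B] [Module.Finite k B] [Nontrivial A]

theorem rate_le_of_mdeg (m : ℕ) (h : ∀ n, mdeg k (Pow k B n) ≤ m ^ n * mdeg k (Pow k A n)) :
    rate k B ≤ m * rate k A := by
  rcases Nat.eq_zero_or_pos m with hm | hm
  · subst hm
    rw [rate_eq]
    refine le_trans (irate_le _ 0) ?_
    have h1 : mdeg k (Pow k B 1) = 0 := by
      have := h 1
      simpa using this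
    simp [h1]
  have hm' : (0 : ℝ) < m := by exact_mod_cast hm
  have key : rate k B / m ≤ rate k A := by
    rw [rate_eq (A := A)]
    have hB0 : 0 ≤ rate k B := by
      rw [rate_eq]
      exact irate_nonneg _
    refine le_irate _ _ (by positivity) fun n => ?_
    rw [div_pow, div_le_iff₀ (by positivity)]
    have h1 : rate k B ^ (n + 1) ≤ mdeg k (Pow k B (n + 1)) := by
      rw [rate_eq]
      exact irate_pow_le (fun n => mdeg k (Pow k B n)) n
    have h2 : (mdeg k (Pow k B (n + 1)) : ℝ) ≤ m ^ (n + 1) * mdeg k (Pow k A (n + 1)) := by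
      exact_mod_cast h (n + 1)
    linarith
  rw [div_le_iff₀ hm'] at key
  linarith

end rates

end Pool.Agent.R566.CV
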