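import Pool.Agent.R566.CV.Inj
import Pool.Agent.R836.Emb

/-!
# Powers and growth rates of subquotients and unions
-/

set_option autoImplicit false

namespace Pool.Agent.R566.CV

open scoped TensorProduct PowerSeries
open Pool.Agent.H826R3.SM Pool.Agent.TH671.DU Filter Topology

section pow

variable {k : Type} [Field k] {A B : Type} [CommRing A] [Algebra k A] [CommRing B] [Algebra k B]

lemma powLift_tprod {n : ℕ} (f : A →ₐ[k] B) (x : Fin n → A) :
    powLift (fun i => (sg k B i).comp f) (PiTensorProduct.tprod k x) =
      PiTensorProduct.tprod k (fun i => f (x i)) := by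
  rw [tprod_eq_prod_single, map_prod, tprod_eq_prod_single]
  refine Finset.prod_congr rfl fun i _ => ?_
  have h := powLift_single (fun i => (sg k B i).comp f) i (x i)
  exact h

lemma powLift_injective {n : ℕ} (f : A →ₐ[k] B) (hf : Function.Injective f) :
    Function.Injective (powLift (n := n) (fun i => (sg k B i).comp f)) := by
  obtain ⟨g, hg⟩ := f.toLinearMap.exists_leftInverse_of_injective (LinearMap.ker_eq_bot.mpr hf)
  have hg' : ∀ x, g (f x) = x := fun x => LinearMap.congr_fun hg x
  have h1 : ∀ y : Pow k A n,
      PiTensorProduct.map (fun _ : Fin n => g) (powLift (fun i => (sg k B i).comp f) y) = y := by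
    intro y
    induction y using PiTensorProduct.induction_on with
    | smul_tprod r x =>
      rw [map_smul, map_smul, powLift_tprod, PiTensorProduct.map_tprod]
      simp only [hg']
    | add x y hx hy => rw [map_add, map_add, hx, hy]
  exact Function.LeftInverse.injective h1

end pow

section mdeg

variable {k : Type} [Field k] [IsAlgClosed k] {A B : Type} [CommRing A] [Algebra k A] [CommRing B]
  [Algebra k B] [Module.Finite k B]

/-- `A` is a quotient of a subalgebra of `B` -/
theorem mdeg_sub (S : Subalgebra k B) (p : S →ₐ[k] A) (hp : Function.Surjective p) (n : ℕ) :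
    mdeg k (Pow k A n) ≤ mdeg k (Pow k B n) := by
  obtain ⟨D, hD⟩ := exists_fam (k := k) (Pow k B n)
  have h1 := Fam.of_injective (mdeg_spec hD) (powLift (n := n) (fun i => (sg k B i).comp S.val))
    (powLift_injective S.val Subtype.val_injective)
  refine mdeg_le (Fam.of_pow h1 (fun i => (sg k A i).comp p) ?_)
  intro T hT
  apply pow_eq_top
  intro i x
  obtain ⟨y, rfl⟩ := hp x
  exact hT i y

omit [IsAlgClosed k] in
theorem finite_sub (S : Subalgebra k B) (p : S →ₐ[k] A) (hp : Function.Surjective p) :
    Module.Finite k A := by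
  have hfin : Module.Finite k S :=
    inferInstanceAs (Module.Finite k (Subalgebra.toSubmodule S))
  exact Module.Finite.of_surjective p.toLinearMap hp

theorem total_sub (S : Subalgebra k B) (p : S →ₐ[k] A) (hp : Function.Surjective p) (n : ℕ) :
    Module.finrank k A ^ n + defect k (Pow k A n) ≤
      Module.finrank k B ^ n + defect k (Pow k B n) := by
  have hfin := finite_sub S p hp
  have h := mdeg_sub S p hp n
  rwa [← fadd k (Pow k A n), ← fadd k (Pow k B n), finrank_Pow', finrank_Pow'] at h

theorem irate_mono {u v : ℕ → ℕ} (h : ∀ n, u n ≤ v n) : irate u ≤ irate v := by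
  refine le_ciInf fun n => (irate_le u n).trans ?_
  exact Real.rpow_le_rpow (Nat.cast_nonneg _) (by exact_mod_cast h _) (by positivity)

theorem rate_sub (S : Subalgebra k B) (p : S →ₐ[k] A) (hp : Function.Surjective p) :
    rate k A ≤ rate k B := by
  have hfin := finite_sub S p hp
  rw [rate_eq, rate_eq]
  exact irate_mono fun n => mdeg_sub S p hp n

end mdeg

section union

variable {k : Type} [Field k] {A : Type} [CommRing A] [Algebra k A]

/-- A map to a product whose kernel is contained in the kernel of a surjection. -/
theorem exists_sub_pi {ι : Type} (B : ι → Type) [∀ i, CommRing (B i)] [∀ i, Algebra k (B i)]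
    {P : Type} [CommRing P] [Algebra k P] (g : ∀ i, P →ₐ[k] B i) (q : P →ₐ[k] A)
    (hq : Function.Surjective q) (hker : ∀ x, (∀ i, g i x = 0) → q x = 0) :
    ∃ (S : Subalgebra k (∀ i, B i)) (p : S →ₐ[k] A), Function.Surjective p := by
  let G : P →ₐ[k] (∀ i, B i) := AlgHom.pi g
  have hG : ∀ x i, G x i = g i x := fun x i => rfl
  refine ⟨G.range, ?_⟩
  have hs : Function.Surjective G.rangeRestrict := AlgHom.rangeRestrict_surjective G
  let e := Ideal.quotientKerAlgEquivOfSurjective hs
  let l : (P ⧸ RingHom.ker G.rangeRestrict) →ₐ[k] A :=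
    Ideal.Quotient.liftₐ (RingHom.ker G.rangeRestrict) q (by
      intro x hx
      apply hker
      intro i
      have h1 : G.rangeRestrict x = 0 := hx
      have h2 : G x = 0 := congrArg Subtype.val h1
      rw [← hG, h2]
      rfl)
  refine ⟨l.comp e.symm.toAlgHom, ?_⟩
  intro a
  obtain ⟨x, rfl⟩ := hq a
  refine ⟨e (Ideal.Quotient.mk _ x), ?_⟩
  change l (e.symm (e (Ideal.Quotient.mk _ x))) = q x
  rw [e.symm_apply_apply]
  rfl

end union

end Pool.Agent.R566.CV
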