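import Mathlib
import Pool.Agent.H826R3.SM.Chars

/-!
# Discriminants and reduced fibres
-/

set_option autoImplicit false

namespace Pool.Agent.R566.CV

open scoped TensorProduct
open Pool.Agent.H826R3.SM

/-- the discriminant commutes with base change -/
theorem discr_baseChange {R S L ι : Type} [CommRing R] [CommRing S] [Algebra R S] [CommRing L]
    [Algebra R L] [Fintype ι] [DecidableEq ι] (b : Module.Basis ι R S) :
    Algebra.discr L (Algebra.TensorProduct.basis L b) = algebraMap R L (Algebra.discr R b) := by
  rw [Algebra.discr_def, Algebra.discr_def, RingHom.map_det]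
  congr 1
  ext i j
  have hfree : Module.Free R S := Module.Free.of_basis b
  have hfin : Module.Finite R S := Module.Finite.of_basis b
  rw [RingHom.mapMatrix_apply, Matrix.map_apply, Algebra.traceMatrix_apply,
    Algebra.traceMatrix_apply, Algebra.traceForm_apply, Algebra.traceForm_apply,
    Algebra.trace_apply, Algebra.trace_apply, ← LinearMap.trace_baseChange]
  congr 1
  apply LinearMap.ext
  intro x
  induction x using TensorProduct.induction_on with
  | zero => simp
  | tmul a s => simp
  | add x y hx hy => rw [map_add, hx, hy, map_add]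

/-- nonzero discriminant implies reduced -/
theorem reduced_of_discr {L T ι : Type} [Field L] [CommRing T] [Algebra L T] [Fintype ι]
    [DecidableEq ι] (b : Module.Basis ι L T) (h : Algebra.discr L b ≠ 0) : IsReduced T := by
  have hfree : Module.Free L T := Module.Free.of_basis b
  have hfin : Module.Finite L T := Module.Finite.of_basis b
  refine ⟨fun x hx => ?_⟩
  have h0 : (Algebra.traceMatrix L b).mulVec (b.repr x) = 0 := by
    funext i
    have h1 : Algebra.trace L T (b i * x) = 0 := by
      have h2 : IsNilpotent (LinearMap.trace L T (LinearMap.mul L T (b i * x))) := by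
        refine LinearMap.isNilpotent_trace_of_isNilpotent ?_
        obtain ⟨n, hn⟩ := hx
        refine ⟨n, ?_⟩
        apply LinearMap.ext
        intro y
        have h3 : ∀ m : ℕ, ((LinearMap.mul L T (b i * x)) ^ m) y = (b i * x) ^ m * y := by
          intro m
          induction m with
          | zero => simp
          | succ m ih =>
            rw [pow_succ', Module.End.mul_apply, ih, LinearMap.mul_apply', pow_succ']
            ring
        rw [h3, mul_pow, hn, mul_zero, zero_mul, LinearMap.zero_apply]
      rw [Algebra.trace_apply]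
      exact h2.eq_zero
    change ∑ j, Algebra.traceMatrix L b i j * b.repr x j = 0
    rw [← h1]
    conv_rhs => rw [← b.sum_repr x, Finset.mul_sum, map_sum]
    refine Finset.sum_congr rfl fun j _ => ?_
    rw [Algebra.traceMatrix_apply, Algebra.traceForm_apply, mul_smul_comm, map_smul, smul_eq_mul,
      mul_comm]
  have h4 := Matrix.eq_zero_of_mulVec_eq_zero h h0
  have h5 : b.repr x = 0 := by
    ext i
    exact congrFun h4 i
  exact (map_eq_zero_iff _ b.repr.injective).mp h5

/-- the discriminant of a reduced algebra over an algebraically closed field is not zero -/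
theorem discr_of_reduced {L T ι : Type} [Field L] [IsAlgClosed L] [CommRing T] [Algebra L T]
    [Fintype ι] [DecidableEq ι] (b : Module.Basis ι L T) (h : IsReduced T) :
    Algebra.discr L b ≠ 0 := by
  classical
  have hfree : Module.Free L T := Module.Free.of_basis b
  have hfin : Module.Finite L T := Module.Finite.of_basis b
  have hfc : Finite (T →ₐ[L] L) := Finite.algHom L T L
  have : Fintype (T →ₐ[L] L) := Fintype.ofFinite _
  -- dual idempotents
  have hidem : ∀ χ : T →ₐ[L] L, ∃ e : T, χ e = 1 ∧ ∀ ψ : T →ₐ[L] L, ψ ≠ χ → ψ e = 0 := by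
    intro χ
    have hli := linearIndependent_algHom_toLinearMap L T L
    have hsurj : Function.Surjective
        (LinearMap.pi (fun ψ : T →ₐ[L] L => ψ.toLinearMap) : T →ₗ[L] ((T →ₐ[L] L) → L)) := by
      rw [← LinearMap.range_eq_top]
      by_contra hne
      obtain ⟨f, hf0, hf⟩ := Submodule.exists_dual_map_eq_bot_of_lt_top
        (lt_top_iff_ne_top.mpr hne) inferInstance
      apply hf0
      have hz : ∑ ψ : T →ₐ[L] L, f (Pi.single ψ 1) • ψ.toLinearMap = 0 := by
        apply LinearMap.ext
        intro x
        have h1 : f (LinearMap.pi (fun ψ : T →ₐ[L] L => ψ.toLinearMap) x) = 0 := by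
          have : f (LinearMap.pi (fun ψ : T →ₐ[L] L => ψ.toLinearMap) x) ∈
              Submodule.map f (LinearMap.range
                (LinearMap.pi (fun ψ : T →ₐ[L] L => ψ.toLinearMap))) :=
            ⟨_, ⟨x, rfl⟩, rfl⟩
          rwa [hf, Submodule.mem_bot] at this
        rw [LinearMap.zero_apply, ← h1, LinearMap.sum_apply]
        conv_rhs => rw [← Finset.univ_sum_single
          (LinearMap.pi (fun ψ : T →ₐ[L] L => ψ.toLinearMap) x), map_sum]
        refine Finset.sum_congr rfl fun ψ _ => ?_
        rw [LinearMap.smul_apply, smul_eq_mul, mul_comm]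
        have : (Pi.single ψ ((LinearMap.pi (fun ψ : T →ₐ[L] L => ψ.toLinearMap)) x ψ) :
            (T →ₐ[L] L) → L) = ψ x • Pi.single ψ 1 := by
          rw [← Pi.single_smul, smul_eq_mul, mul_one]
          rfl
        rw [this, map_smul, smul_eq_mul]
        rfl
      have hc := Fintype.linearIndependent_iff.mp hli (fun ψ => f (Pi.single ψ 1)) hz
      apply LinearMap.ext
      intro v
      rw [← Finset.univ_sum_single v, map_sum, LinearMap.zero_apply]
      refine Finset.sum_eq_zero fun ψ _ => ?_
      have : (Pi.single ψ (v ψ) : (T →ₐ[L] L) → L) = v ψ • Pi.single ψ 1 := by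
        rw [← Pi.single_smul, smul_eq_mul, mul_one]
      rw [this, map_smul, hc ψ, smul_zero]
    obtain ⟨e, he⟩ := hsurj (Pi.single χ 1)
    refine ⟨e, ?_, fun ψ hψ => ?_⟩
    · have := congrFun he χ
      simpa using this
    · have := congrFun he ψ
      simpa [Pi.single_apply, hψ] using this
  intro h0
  rw [Algebra.discr_def] at h0
  obtain ⟨v, hv0, hv⟩ := Matrix.exists_mulVec_eq_zero_iff.mpr h0
  set x : T := ∑ j, v j • b j with hx
  have hx0 : x = 0 := by
    refine eq_zero_of_chars (L := L) x fun χ => ?_
    obtain ⟨e, he1, he2⟩ := hidem χ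
    have htr : ∀ y : T, Algebra.trace L T (y * x) = 0 := by
      intro y
      have h1 : ∀ i, Algebra.trace L T (b i * x) = 0 := by
        intro i
        have := congrFun hv i
        change ∑ j, Algebra.traceMatrix L b i j * v j = 0 at this
        rw [← this, hx, Finset.mul_sum, map_sum]
        refine Finset.sum_congr rfl fun j _ => ?_
        rw [Algebra.traceMatrix_apply, Algebra.traceForm_apply, mul_smul_comm, map_smul,
          smul_eq_mul, mul_comm]
      rw [← b.sum_repr y, Finset.sum_mul, map_sum]
      refine Finset.sum_eq_zero fun i _ => ?_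
      rw [smul_mul_assoc, map_smul, h1, smul_zero]
    have hlm : LinearMap.mul L T (e * x) = (χ x • χ.toLinearMap).smulRight e := by
      apply LinearMap.ext
      intro y
      rw [LinearMap.mul_apply', LinearMap.smulRight_apply, LinearMap.smul_apply, smul_eq_mul]
      rw [← sub_eq_zero]
      refine eq_zero_of_chars (L := L) _ fun ψ => ?_
      rw [map_sub, map_mul, map_mul, map_smul, smul_eq_mul]
      by_cases hψ : ψ = χ
      · rw [hψ, he1]
        change 1 * χ x * χ y - χ x * χ y * 1 = 0
        ring
      · rw [he2 ψ hψ]
        ring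
    have h2 := htr e
    rw [Algebra.trace_apply] at h2
    change LinearMap.trace L T (LinearMap.mul L T (e * x)) = 0 at h2
    rw [hlm, LinearMap.trace_smulRight, LinearMap.smul_apply, smul_eq_mul] at h2
    change χ x * χ e = 0 at h2
    rwa [he1, mul_one] at h2
  apply hv0
  funext j
  have := Fintype.linearIndependent_iff.mp b.linearIndependent v (by rw [← hx, hx0]) j
  rw [this]
  rfl

end Pool.Agent.R566.CV
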