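import Pool.Agent.R566.CV.Pw

/-!
# The universal monic polynomial and monogenic covers
-/

set_option autoImplicit false

namespace Pool.Agent.R566.CV

open scoped TensorProduct PowerSeries
open Pool.Agent.H826R3.SM Pool.Agent.TH671.DU Filter Topology

section univ

variable (k : Type) [Field k] (m : ℕ)

/-- the universal monic polynomial of degree `m` -/
noncomputable def uni : Polynomial (MvPolynomial (Fin m) k) :=
  Polynomial.X ^ m + ∑ i : Fin m, Polynomial.C (MvPolynomial.X i) * Polynomial.X ^ (i : ℕ)

theorem uni_deg : (∑ i : Fin m, Polynomial.C (MvPolynomial.X i) * Polynomial.X ^ (i : ℕ) :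
    Polynomial (MvPolynomial (Fin m) k)).degree < m :=
  Polynomial.degree_sum_fin_lt _

theorem uni_monic : (uni k m).Monic := Polynomial.monic_X_pow_add (uni_deg k m)

theorem uni_natDegree : (uni k m).natDegree = m := by
  unfold uni
  rw [Polynomial.natDegree_add_eq_left_of_degree_lt, Polynomial.natDegree_X_pow]
  rw [Polynomial.degree_X_pow]
  exact uni_deg k m

/-- a monic polynomial is a specialization of the universal one -/
theorem uni_map {T : Type} [CommRing T] (r : MvPolynomial (Fin m) k →+* T) (f : Polynomial T)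
    (hf : f.Monic) (hd : f.natDegree = m) (hr : ∀ i : Fin m, r (MvPolynomial.X i) = f.coeff i) :
    (uni k m).map r = f := by
  conv_rhs => rw [hf.as_sum, hd]
  unfold uni
  rw [Polynomial.map_add, Polynomial.map_pow, Polynomial.map_X, Polynomial.map_sum,
    Finset.sum_range]
  congr 1
  refine Finset.sum_congr rfl fun i _ => ?_
  rw [Polynomial.map_mul, Polynomial.map_pow, Polynomial.map_X, Polynomial.map_C, hr]

variable [IsAlgClosed k]

theorem uni_discr : Algebra.discr (MvPolynomial (Fin m) k)
    (AdjoinRoot.powerBasis' (uni_monic k m)).basis ≠ 0 := by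
  classical
  have hinf : Infinite k := IsAlgClosed.instInfinite
  obtain ⟨a⟩ : Nonempty (Fin m ↪ k) := ⟨(Fin.valEmbedding).trans (Infinite.natEmbedding k)⟩
  let P : Polynomial k := ∏ i : Fin m, (Polynomial.X - Polynomial.C (a i))
  have hPm : P.Monic := Polynomial.monic_prod_of_monic _ _ fun i _ => Polynomial.monic_X_sub_C _
  have hPd : P.natDegree = m := by
    rw [Polynomial.natDegree_prod_of_monic _ _ fun i _ => Polynomial.monic_X_sub_C _]
    simp
  let x0 : MvPolynomial (Fin m) k →+* k := MvPolynomial.eval fun i => P.coeff i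
  have hmap : (uni k m).map x0 = P := uni_map k m x0 P hPm hPd fun i => by
    change MvPolynomial.eval _ (MvPolynomial.X i) = _
    rw [MvPolynomial.eval_X]
  let alg : Algebra (MvPolynomial (Fin m) k) k := x0.toAlgebra
  have hroot : ∀ i, (uni k m).eval₂ x0 (a i) = 0 := by
    intro i
    rw [← Polynomial.eval_map, hmap, Polynomial.eval_prod]
    refine Finset.prod_eq_zero (Finset.mem_univ i) ?_
    simp
  let g : Fin m → (AdjoinRoot (uni k m) →ₐ[MvPolynomial (Fin m) k] k) := fun i =>
    { AdjoinRoot.lift x0 (a i) (hroot i) with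
      commutes' := fun c => by
        change AdjoinRoot.lift x0 (a i) (hroot i) (AdjoinRoot.of _ c) = _
        rw [AdjoinRoot.lift_of]
        rfl }
  let χ : Fin m → ((k ⊗[MvPolynomial (Fin m) k] AdjoinRoot (uni k m)) →ₐ[k] k) := fun i =>
    Algebra.TensorProduct.lift (AlgHom.id k k) (g i) (fun _ _ => Commute.all _ _)
  set pb := AdjoinRoot.powerBasis' (uni_monic k m) with hpb
  let bT := Algebra.TensorProduct.basis k pb.basis
  have hdim : pb.dim = m := by
    rw [hpb, AdjoinRoot.powerBasis'_dim, uni_natDegree]
  have hχ : ∀ i j, χ i (bT j) = a i ^ (j : ℕ) := by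
    intro i j
    rw [Algebra.TensorProduct.basis_apply, Algebra.TensorProduct.lift_tmul, map_one, one_mul,
      PowerBasis.basis_eq_pow, map_pow]
    congr 1
    change AdjoinRoot.lift x0 (a i) (hroot i) (AdjoinRoot.root _) = _
    rw [AdjoinRoot.lift_root]
  have hred : IsReduced (k ⊗[MvPolynomial (Fin m) k] AdjoinRoot (uni k m)) := by
    refine ⟨fun x hx => ?_⟩
    let z := bT.repr x
    have h1 : ∀ i, ∑ j, z j * a i ^ (j : ℕ) = 0 := by
      intro i
      have h2 : χ i x = 0 := (hx.map (χ i)).eq_zero
      rw [← bT.sum_repr x, map_sum] at h2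
      rw [← h2]
      refine Finset.sum_congr rfl fun j _ => ?_
      rw [map_smul, hχ, smul_eq_mul]
    let p : Polynomial k := ∑ j, Polynomial.C (z j) * Polynomial.X ^ (j : ℕ)
    have hp0 : p = 0 := by
      by_contra hne
      have hdeg : p.natDegree < m := by
        have h3 : p.degree < m := by
          have h8 := Polynomial.degree_sum_fin_lt (n := pb.dim) fun j => z j
          have h9 : ((pb.dim : ℕ) : WithBot ℕ) = (m : ℕ) := by exact_mod_cast hdim
          exact lt_of_lt_of_eq h8 h9
        exact (Polynomial.natDegree_lt_iff_degree_lt hne).mpr h3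
      apply hne
      refine Polynomial.eq_zero_of_natDegree_lt_card_of_eval_eq_zero p a.injective
        (fun i => ?_) (by rwa [Fintype.card_fin])
      rw [Polynomial.eval_finsetSum, ← h1 i]
      refine Finset.sum_congr rfl fun j _ => ?_
      simp
    have hz : ∀ j, z j = 0 := by
      intro j
      have h4 : p.coeff (j : ℕ) = z j := by
        rw [Polynomial.finsetSum_coeff, Finset.sum_eq_single j]
        · simp
        · intro i _ hij
          rw [Polynomial.coeff_C_mul, Polynomial.coeff_X_pow, if_neg, mul_zero]
          exact fun h => hij (Fin.ext h.symm)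
        · intro h
          exact absurd (Finset.mem_univ _) h
      rw [← h4, hp0, Polynomial.coeff_zero]
    have h5 : bT.repr x = 0 := by
      ext j
      exact hz j
    exact (map_eq_zero_iff _ bT.repr.injective).mp h5
  have h6 := discr_of_reduced bT hred
  rw [discr_baseChange pb.basis] at h6
  intro h7
  apply h6
  rw [h7, map_zero]

end univ

section mono

variable {k : Type} [Field k] [IsAlgClosed k] {A B : Type} [CommRing A] [Algebra k A]
  [Module.Finite k A] [CommRing B] [Algebra k B]

/-- an algebra generated by a zero of a monic polynomial -/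
theorem mdeg_mono (f : Polynomial A) (hf : f.Monic) (g : A →ₐ[k] B) (y : B)
    (hy : f.eval₂ (g : A →+* B) y = 0)
    (hgen : ∀ T : Subalgebra k B, (∀ a, g a ∈ T) → y ∈ T → T = ⊤) (n : ℕ) :
    mdeg k (Pow k B n) ≤ f.natDegree ^ n * mdeg k (Pow k A n) := by
  set m := f.natDegree with hm
  let r : MvPolynomial (Fin m) k →ₐ[k] A := MvPolynomial.aeval fun i => f.coeff i
  have hmap : (uni k m).map (r : MvPolynomial (Fin m) k →+* A) = f :=
    uni_map k m _ f hf rfl fun i => by
      change MvPolynomial.aeval _ (MvPolynomial.X i) = _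
      rw [MvPolynomial.aeval_X]
  have hF : (uni k m).eval₂ ((g : A →+* B).comp (r : MvPolynomial (Fin m) k →+* A)) y = 0 := by
    rw [← Polynomial.eval₂_map, hmap, hy]
  let s : AdjoinRoot (uni k m) →+* B :=
    AdjoinRoot.lift ((g : A →+* B).comp (r : MvPolynomial (Fin m) k →+* A)) y hF
  have h1 := mdeg_cover (B := B) (AdjoinRoot.powerBasis' (uni_monic k m)).basis (uni_discr k m) n r
    g s (fun p => by
      change AdjoinRoot.lift _ y hF (AdjoinRoot.of _ p) = _
      rw [AdjoinRoot.lift_of]
      rfl)
    (fun T hT1 hT2 => hgen T hT1 (by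
      have := hT2 (AdjoinRoot.root _)
      change AdjoinRoot.lift _ y hF (AdjoinRoot.root _) ∈ T at this
      rwa [AdjoinRoot.lift_root] at this))
  rwa [Fintype.card_fin, AdjoinRoot.powerBasis'_dim, uni_natDegree] at h1

end mono

end Pool.Agent.R566.CV
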